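import Pool.Agent.MP_ee8c61_ag.M3K.PD
import Pool.Agent.MP_ee8c61_ag.M3KV.Asm
import Pool.Agent.MP_ee8c61_ag.Q3FG.Cb

/-! The exponent along a curve that is not contracted. -/

namespace Pool.Agent.MP_ee8c61_ag.Q3FG

open H59 M3 M3E Finset
open M3K (pfL Nn SNn nn_succ rowNg0)

noncomputable section

variable {N : ℕ} {f : Po N} {M : Mod N}

/-- The data on the upper model. -/
def pdOf (C : Cb f M) (L : C.W.J → ℤ) : M3KV.PD C.W :=
  ⟨{i | ∃ j, C.Alive j ∧ C.D.e j = i}, C.P ∘ₗ pfL C.D, L⟩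

variable {C : Cb f M} {c : M.J → ℤ} {L : C.W.J → ℤ} {o : M.J}

theorem pdOf_P (x : C.W.J → ℚ) : (pdOf C L).P x = C.P (C.D.pf x) := rfl

theorem pf_e (hE : EOut) (hM : M.OK f) (j : M.J) :
    C.D.pf (C.W.q (C.W.e (C.D.e j))) = M.q (M.e j) := funext fun l => by
  simp only [Dom.pf, Mod.q_apply, Mod.e_apply, (hE.dc N f C.W M C.D C.ok hM).inj.eq_iff]

theorem pdOf_dl (hE : EOut) (hM : M.OK f) (o : M.J) (i : C.W.J) :
    (pdOf C L).dl (C.D.e o) i = C.W.nu i - C.P (M.q (M.kk + M.e o)) i := by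
  have e : C.D.pf (C.W.q (C.W.kk + C.W.e (C.D.e o))) = M.q (M.kk + M.e o) := by
    rw [C.W.q_add, M.q_add, ← pf_e (C := C) hE hM]
    exact funext fun l => by
      simp only [Dom.pf, Pi.add_apply, Mod.q_apply, Mod.kk, (hE.jd N f C.W M C.D C.ok hM).2]
  rw [M3KV.PD.dl, pdOf_P, e]
  rfl

theorem pdOf_ok (hE : EOut) (hM : M.OK f) (hp : Pz C c L) (ho : C.Alive o)
    (pos : ∀ i, i ≠ C.D.e o → C.P (M.q (M.kk + M.e o)) i < C.W.nu i) :
    (pdOf C L).OK (C.D.e o) := by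
  have K := ka hE C hM
  have hN := rowNg0 hE
  have Dc := hE.dc N f C.W M C.D C.ok hM
  have Aq := hE.aq N f C.W C.ok
  refine ⟨⟨o, ho, rfl⟩, ?_, fun x x' h => K.congr _ _ fun j hj => h _ ⟨j, hj, rfl⟩,
    fun x g hg m x' _ e => K.excH (m • x) x' (fun i => ?_) ((hN N f C.W C.ok).pow _ m g hg),
    ?_, ?_, hp.free, fun x => ?_, fun x ε hε => ?_, fun i hi => ?_⟩
  · rintro x _ ⟨j, hj, rfl⟩
    exact hj _
  · have h1 : M.q (C.D.pf (m • x)) = m • C.D.pf (C.W.q x) := funext fun j =>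
      congrFun (C.W.q_nsmul m x) (C.D.e j)
    rw [h1, map_nsmul, ← pdOf_P (L := L), ← e]
    exact lt_add_one _
  · rw [pdOf_P, show (pdOf C L).L = L from rfl, hp.eq]
    exact K.congr _ _ fun j hj => hj _
  · rw [pdOf_P, ← K.aa, K.aa, ← Dc.aa, C.D.q_pb,
      show C.D.pf (C.D.pb (M.q M.aa)) = M.q M.aa from funext fun j => Dc.pb_e ℚ _ j,
      K.aa, ← C.D.q_pb, Dc.aa]
  · obtain ⟨r, hr⟩ := K.far _ hp.inn (C.D.pf (C.W.q x))
    have := K.semi _ (hr r le_rfl).2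
    rw [map_add, map_nsmul, ← hp.eq] at this
    exact ⟨r, this⟩
  · obtain ⟨w, hw⟩ := C.ok.amp
    set Y := C.P (C.D.pf (C.W.q w)) - C.W.q w with hY
    have h0 : (0 : ℚ) < ∑ i, |Y i| + 1 := by positivity
    set η := ε / (∑ i, |Y i| + 1) with hη
    have h1 : 0 < η := div_pos hε h0
    obtain ⟨r, hr⟩ := K.amp c L hp (C.D.pf (C.W.q x) - η • C.D.pf (C.W.q w))
    refine ⟨η • Y, ?_, fun i => ?_, r, fun n hn => ?_⟩
    · rintro _ ⟨j, hj, rfl⟩
      simp only [hY, Pi.smul_apply, Pi.sub_apply, hj _, Dom.pf, sub_self, smul_zero]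
    · have h2 : Y i < ∑ i, |Y i| + 1 := ((le_abs_self _).trans
        (single_le_sum (f := fun i => |Y i|) (fun _ _ => abs_nonneg _) (mem_univ i))).trans_lt
          (lt_add_one _)
      rw [Pi.smul_apply, smul_eq_mul, hη, div_mul_eq_mul_div, div_lt_iff₀ h0]
      exact mul_lt_mul_of_pos_left h2 hε
    · have := hr n hn _ (Aq.smul _ η h1 (Aq.of_amp w hw))
      rw [map_sub, map_smul] at this
      rw [pdOf_P, show (pdOf C L).L = L from rfl, hY, smul_sub]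
      rwa [show n • C.W.q L + C.P (C.D.pf (C.W.q x)) -
        (η • C.P (C.D.pf (C.W.q w)) - η • C.W.q w) = n • C.W.q L + (C.P (C.D.pf (C.W.q x)) -
          η • C.P (C.D.pf (C.W.q w))) + η • C.W.q w by abel]
  · rw [pdOf_dl hE hM]
    exact sub_pos.2 (pos i hi)

theorem lc_plt (hE : EOut) (hM : M.OK f) (C : Cb f M) : C.D.pb M.nu ≤ C.W.nu ∧
    ∀ o i, i ≠ C.D.e o → C.D.pb (M.q (M.kk + M.e o)) i < C.W.nu i := by
  have Dc := hE.dc N f C.W M C.D C.ok hM
  have Jd := (hE.jd N f C.W M C.D C.ok hM).2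
  have Plt := hE.plt N f C.W M C.D C.ok hM
  have nue : ∀ j, C.W.nu (C.D.e j) = M.nu j := fun j => by simp only [Mod.nu, Jd]
  have pl : ∀ o i (ε : ℚ), 0 < ε → i ≠ C.D.e o →
      C.D.pb (M.q (M.kk + M.e o)) i + (1 - ε) * C.D.pb (M.dd o) i < C.W.nu i := by
    intro o i ε hε hi
    have h := (Plt o ((1 - ε) • M.dd o) (by simp [Mod.dd]) fun j => by
      simp only [Mod.dd, Pi.smul_apply, smul_eq_mul]
      split_ifs <;> linarith).2.2 i
    rw [Dom.bd, C.D.pb_add, C.D.pb_smul] at h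
    simp only [Pi.sub_apply, Pi.add_apply, Pi.smul_apply, smul_eq_mul, Mod.q_apply, Mod.e_apply,
      if_neg hi, Mod.kk] at h
    simp only [Mod.nu]
    push_cast at h
    linarith
  have nu : ∀ o, M.nu = M.q (M.kk + M.e o) + M.dd o := fun o => funext fun j => by
    simp only [Mod.nu, Mod.dd, Mod.kk, Pi.add_apply, Mod.q_apply, Mod.e_apply]
    split_ifs <;> simp
  have plt : ∀ o i, i ≠ C.D.e o → C.D.pb (M.q (M.kk + M.e o)) i < C.W.nu i := fun o i hi => by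
    simpa using pl o i 1 one_pos hi
  have lc : C.D.pb M.nu ≤ C.W.nu := fun i => by
    rcases isEmpty_or_nonempty M.J with h | ⟨⟨o⟩⟩
    · simp only [Dom.pb, univ_eq_empty, sum_empty, Mod.nu]
      positivity
    by_cases hi : i = C.D.e o
    · rw [hi, Dc.pb_e, nue]
    rw [nu o, C.D.pb_add]
    refine le_of_forall_pos_le_add fun δ hδ => ?_
    have h0 : 0 ≤ C.D.pb (M.dd o) i := by
      have := C.D.pb_mono (show (0 : M.J → ℚ) ≤ M.dd o from fun j => by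
        simp only [Mod.dd, Pi.zero_apply]
        split_ifs <;> norm_num) i
      rwa [C.D.pb_zero] at this
    have h1 := pl o i (δ / (C.D.pb (M.dd o) i + 1)) (by positivity) hi
    have h2 : δ / (C.D.pb (M.dd o) i + 1) * C.D.pb (M.dd o) i ≤ δ := by
      rw [div_mul_eq_mul_div, div_le_iff₀ (by positivity)]
      nlinarith
    simp only [Pi.add_apply]
    linarith
  exact ⟨lc, plt⟩

variable {d h : M.J → ℚ} {s : ℚ}

theorem P_bd (K : Ka C) (ho : d o = 1) (x : M.J → ℚ) (x0 : x o = 0)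
    (hx : ∀ j, j ≠ o → x j ≤ d j) (i : C.W.J) :
    C.P (M.q (M.kk + M.e o)) i + C.P x i ≤ C.P (M.q M.kk + d) i := by
  have := K.mono (M.q M.kk + d - (M.q (M.kk + M.e o) + x)) (fun j => by
    simp only [Pi.sub_apply, Pi.add_apply, Pi.zero_apply, Mod.q_apply, Mod.e_apply]
    split_ifs with e
    · rw [e, ho, x0]; push_cast; linarith
    · have := hx j e; push_cast; linarith) i
  rw [map_sub, map_add C.P _ x] at this
  simp only [Pi.sub_apply, Pi.add_apply, Pi.zero_apply] at this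
  linarith

theorem pos_of (hE : EOut) (hM : M.OK f) (hh : M.AmpQ h) (hs : 0 < s) (ho : d o = 1)
    (hd : ∀ j, 0 ≤ d j ∧ d j ≤ 1) (hi : Inn C.U (M.q M.kk + d + s • h)) (i : C.W.J)
    (hio : i ≠ C.D.e o) : C.P (M.q (M.kk + M.e o)) i < C.W.nu i := by
  have K := ka hE C hM
  obtain ⟨lc, plt⟩ := lc_plt hE hM C
  by_contra! hn
  have h1 := P_bd K ho 0 rfl (fun j _ => (hd j).1) i
  have h2 := C.D.pb_mono (show M.q M.kk + d ≤ M.nu from fun j => by
    have := (hd j).2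
    simp only [Pi.add_apply, Mod.q_apply, Mod.kk, Mod.nu, Int.cast_natCast]
    linarith) i
  have h3 := mul_le_mul_of_nonneg_left (K.ge _ ((hE.aq N f M hM).semi _ hh) i) hs.le
  have h4 := K.le _ (RKa.inn_mem C hi) i
  have h5 := K.one _ i hi (le_antisymm h4 (by
    rw [map_add, map_smul, C.D.pb_add, C.D.pb_smul]
    rw [map_zero] at h1
    simp only [Pi.add_apply, Pi.smul_apply, smul_eq_mul, Pi.zero_apply] at h1 ⊢
    linarith [lc i]))
  rw [h5] at hn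
  exact (plt o i hio).not_ge hn

end

theorem pdOf_nn (hE : EOut) (hn : SNn) {f : Po 3} {M : Mod 3}
    {C : Cb f M} {c : M.J → ℤ} {L : C.W.J → ℤ} {o : M.J} (hM : M.OK f) (hp : Pz C c L)
    (ho : C.Alive o) {i : C.W.J} {V : Vl 3} (hV : C.W.IsCv (C.D.e o) i V) {n : ℕ}
    (h : Nn C.W V (n • L)) : (pdOf C L).NN (C.D.e o) V := by
  intro x
  have K := ka hE C hM
  have h1 := nn_succ hE (rowNg0 hE) C.ok hV.2.1 hp.free h
  rw [← succ_nsmul] at h1
  obtain ⟨e, he⟩ := hn f C.W C.ok _ i V _ hV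
    (K.big _ _ o (K.pz_nsmul c L (n + 1) n.succ_pos hp) ho) h1 x
  obtain ⟨σ, h2, h3⟩ := he e le_rfl
  rw [smul_smul, add_comm] at h2 h3
  exact ⟨e * (n + 1), σ, h2, h3⟩

/-- Where the mobile part of the exponents is negative, the exponent is negative. -/
theorem ar (hE : EOut) (hn : SNn) {f : Po 3} {M : Mod 3} {C : Cb f M} {c : M.J → ℤ}
    {L : C.W.J → ℤ} {o : M.J} (hM : M.OK f) (hp : Pz C c L) (ho : C.Alive o) {d h : M.J → ℚ}
    {s la : ℚ} (hh : M.AmpQ h) (hs : 0 < s) (d1 : d o = 1) (hd : ∀ j, 0 ≤ d j ∧ d j ≤ 1)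
    (hi : Inn C.U (M.q M.kk + d + s • h)) (h0 : M.ex la o = 0)
    (hneg : ∀ j, (M.q M.kk + d - la • M.q M.aa) j < 0 → d j = 1) {i : C.W.J} {V : Vl 3}
    (hV : C.W.IsCv (C.D.e o) i V) {n : ℕ} (hN : Nn C.W V (n • L))
    (hP : C.P (M.q M.kk + d - la • M.q M.aa) i < 0) : C.W.ex la i < 0 := by
  have K := ka hE C hM
  obtain ⟨e, he, h1, h2⟩ := (M3KV.block_of hE.bas hE.nb hE.der hE.cv hE.l0).1 3 f C.W _ _ i V C.ok
    (pdOf_ok hE hM hp ho (pos_of hE hM hh hs d1 hd hi)) hV (pdOf_nn hE hn hM hp ho hV hN)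
  have e0 : ∀ j, (0 : M.J → ℚ) ≤ M.q (M.e j) := fun j l => by
    simp only [Mod.q_apply, Mod.e_apply, Pi.zero_apply]
    split_ifs <;> simp
  obtain ⟨j, j1, j2⟩ : ∃ j, (M.q M.kk + d - la • M.q M.aa) j < 0 ∧ 0 < C.P (M.q (M.e j)) i := by
    by_contra! hc
    generalize M.q M.kk + d - la • M.q M.aa = a at hP hc
    have e1 : a = ∑ j, a j • M.q (M.e j) := funext fun l => by simp [M.e_apply, Finset.sum_apply]
    rw [e1, map_sum, Finset.sum_apply] at hP
    refine hP.not_ge (sum_nonneg fun j _ => ?_)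
    rw [map_smul, Pi.smul_apply, smul_eq_mul]
    rcases lt_or_ge (a j) 0 with k | k
    · exact mul_nonneg_of_nonpos_of_nonpos k.le (hc j k)
    · exact mul_nonneg k (K.mono _ (e0 j) i)
  have jo : j ≠ o := fun k => by
    simp only [k, Pi.sub_apply, Pi.add_apply, Pi.smul_apply, Mod.q_apply, Mod.kk, Mod.aa, d1,
      smul_eq_mul, Int.cast_natCast] at j1
    exact j1.ne h0
  obtain ⟨n, h3⟩ := h2 (C.W.e (C.D.e j))
  rw [pdOf_P, pf_e hE hM] at h3
  have he' : (0 : ℚ) < e := Nat.cast_pos.2 he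
  have h4 : 1 / (e : ℚ) ≤ C.P (M.q (M.e j)) i := by
    rw [h3] at j2 ⊢
    have h7 : (0 : ℚ) < n := (div_pos_iff_of_pos_right he').1 j2
    have h8 : (1 : ℚ) ≤ n := by exact_mod_cast (show (1 : ℤ) ≤ n from by exact_mod_cast h7)
    exact div_le_div_of_nonneg_right h8 he'.le
  have h5 := P_bd K d1 (M.q (M.e j)) (by simp [M.e_apply, jo.symm])
    (fun l _ => by
      simp only [Mod.q_apply, Mod.e_apply]
      split_ifs with k
      · rw [k, hneg j j1]; simp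
      · simpa using (hd l).1) i
  rw [pdOf_dl hE hM] at h1
  rw [map_sub, map_smul, K.aa] at hP
  simp only [Pi.sub_apply, Pi.smul_apply, smul_eq_mul, Mod.q_apply, Mod.aa, Int.cast_natCast,
    Mod.nu, Mod.ex] at hP h1 ⊢
  linarith

end Pool.Agent.MP_ee8c61_ag.Q3FG
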