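import Pool.Agent.MP_ee8c61_ag.Q3FG.BoxA

/-!
Finite generation on the box from finite generation on its faces.
-/

namespace Pool.Agent.MP_ee8c61_ag.Q3FG

open M3 M3E M3FG Finset
open RBOX hiding lower

variable {N : ℕ} {f : Po N} {M : Mod N} {b₀ : ℚ} {G : Set ((M.J → ℤ) × KK N)}

theorem lower (h0 : 0 < b₀) (hM : M.OK f) (A : M.J → ℚ) (m : ℚ) (K : ℤ) : ∃ l : M.J → ℤ, ∀ c r β,
    Adb M b₀ A c m r β → ¬c ≤ K • M.aa → l ≤ c := by
  let x : M.J → ℚ := fun j => m * (M.k j + A j)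
  let R : ℚ := K - ∑ j, |x j + m|
  refine ⟨fun j => ⌊x j + R * M.a j⌋, fun c r β h hc j => ?_⟩
  have e : ∀ j, (c j : ℚ) = x j + β j + r * M.a j := fun j => by
    simpa [Mod.kk, Mod.aa, x, mul_add] using congrFun h.2.2 j
  have ha : ∀ j, (1 : ℚ) ≤ M.a j := fun j => by exact_mod_cast hM.pos j
  obtain ⟨i, hi⟩ := not_forall.1 hc
  have hi' : (K : ℚ) * M.a i < c i := by
    have : K * (M.a i : ℤ) < c i := not_le.1 hi
    exact_mod_cast this
  have h1 : |x i + m| ≤ ∑ j, |x j + m| :=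
    single_le_sum (f := fun j => |x j + m|) (fun j _ => abs_nonneg _) (mem_univ i)
  have h2 : R ≤ r := by
    by_contra hc
    have a1 := mul_lt_mul_of_pos_right (not_le.1 hc) (lt_of_lt_of_le one_pos (ha i))
    have a2 := mul_le_mul_of_nonneg_left (ha i) ((abs_nonneg _).trans h1)
    have a3 := le_abs_self (x i + m)
    have a4 := (h.2.1 i).2
    have a5 := e i
    simp only [R] at a1
    nlinarith
  have h3 := mul_le_mul_of_nonneg_right h2 (zero_le_one.trans (ha j))
  have h4 := (h.2.1 j).1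
  have h5 := mul_nonneg h0.le h.1
  have h6 := e j
  exact Int.cast_le (R := ℚ) |>.1 ((Int.floor_le _).trans (by linarith))

theorem desc (k0 : 0 < b₀) (k1 : b₀ ≤ 1 / 2) (s : Std f M G) {A : M.J → ℚ}
    (hR : ∀ o c m r β, Adb M b₀ A c m r β → β o = m → ∀ g ∈ M.H c, SpM (M.v o) (ev M o) G c g)
    {m : ℚ} (hm : 2 ≤ m) {c : M.J → ℤ} {r : ℚ} {β : M.J → ℚ} (h : Adb M b₀ A c m r β) :
    ∀ g ∈ M.H c, Sp G c g := by
  have ha : ∀ j, (0 : ℚ) < M.a j := fun j => by exact_mod_cast s.ok.pos j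
  obtain ⟨K, hK⟩ : ∃ K : ℤ, K • M.aa ≤ c := by
    refine ⟨-∑ j, |c j|, fun j => ?_⟩
    have h1 : |c j| ≤ ∑ j, |c j| :=
      single_le_sum (f := fun j => |c j|) (fun j _ => abs_nonneg _) (mem_univ j)
    have h2 : (1 : ℤ) ≤ M.a j := by exact_mod_cast s.ok.pos j
    have h3 := mul_le_mul_of_nonneg_left h2 ((abs_nonneg _).trans h1)
    have h4 := neg_abs_le (c j)
    change (-∑ j, |c j|) * (M.a j : ℤ) ≤ c j
    linarith
  obtain ⟨l, hl⟩ := lower k0 s.ok A m K
  have key : ∀ (n : ℕ) c' r β, c' ≤ c → Adb M b₀ A c' m r β → ∑ j, (c' j - l j) < n →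
      ∀ g ∈ M.H c', Sp G c g := by
    intro n
    have done : ∀ c', c' ≤ K • M.aa → ∀ g ∈ M.H c', Sp G c g := fun c' hd g hg =>
      s.mono (s.base K fun V hV => s.bas.oc_mono _ _ _ _ (fun j _ => hd j) (hg V hV)) hK
    induction n with
    | zero =>
      intro c' r β _ h hn
      refine done c' (by_contra fun hd => ?_)
      exact absurd (sum_nonneg fun j _ => sub_nonneg.2 (hl c' r β h hd j)) (not_le.2 hn)
    | succ n ih =>
      intro c' r β hc h hn g hg
      by_cases hd : c' ≤ K • M.aa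
      · exact done c' hd g hg
      obtain ⟨i, -⟩ := not_forall.1 hd
      obtain ⟨o, -, ho⟩ := exists_min_image univ (fun j => (m - β j) / M.a j) ⟨i, mem_univ i⟩
      obtain ⟨t, ht⟩ : ∃ t, t = (m - β o) / M.a o := ⟨_, rfl⟩
      have t0 : 0 ≤ t := ht ▸ div_nonneg (sub_nonneg.2 (h.2.1 o).2) (ha o).le
      have t1 : ∀ j, t * M.a j ≤ m - β j := fun j =>
        (le_div_iff₀ (ha j)).1 (ht ▸ ho j (mem_univ j))
      have t2 : t * M.a o = m - β o := by rw [ht, div_mul_cancel₀ _ (ha o).ne']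
      have b1 : ∀ j, (β + t • M.q M.aa) j = β j + t * M.a j := fun j => by simp [Mod.aa]
      have h2 : Adb M b₀ A c' m (r - t) (β + t • M.q M.aa) := by
        refine ⟨h.1, fun j => ?_, by rw [h.2.2, sub_smul]; abel⟩
        have := h.2.1 j
        have := t1 j
        have := mul_nonneg t0 (ha j).le
        rw [b1]
        constructor <;> linarith
      have bo : (β + t • M.q M.aa) o = m := by rw [b1, t2]; ring
      obtain ⟨u, hu, hgu⟩ := hR o c' m _ _ h2 bo g hg
      have h3 : g - u ∈ M.H c' := fun V hV => s.bas.oc_sub _ _ _ _ (hg V hV) (s.toH hu V hV)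
      have h4 : g - u ∈ M.H (c' - M.e o) := by
        refine (s.sh _ _).2 ⟨((s.sh _ _).1 h3).1, fun j => ?_⟩
        rw [Pi.sub_apply, M.e_apply]
        split_ifs with e
        · rw [e, neg_sub]
          exact hgu
        · rw [sub_zero]
          exact ((s.sh _ _).1 h3).2 j
      have h5 : Adb M b₀ A (c' - M.e o) m (r - t) (β + t • M.q M.aa - M.q (M.e o)) := by
        refine ⟨h.1, fun j => ?_, by rw [M.q_sub, h2.2.2]; abel⟩
        rw [Pi.sub_apply, M.q_apply, M.e_apply]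
        split_ifs with e
        · have := mul_le_mul_of_nonneg_right k1 h.1
          rw [e, bo]
          constructor <;> push_cast <;> linarith
        · simpa using h2.2.1 j
      have h6 : c' - M.e o ≤ c := fun j => by
        have : c' j ≤ c j := hc j
        change c' j - M.e o j ≤ c j
        rw [M.e_apply]
        split_ifs <;> omega
      have h7 : ∑ j, ((c' - M.e o) j - l j) < n := by
        have : ∑ j, ((c' - M.e o) j - l j) = ∑ j, (c' j - l j) - ∑ j, M.e o j := by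
          rw [← sum_sub_distrib]
          exact sum_congr rfl fun j _ => by rw [Pi.sub_apply]; ring
        rw [this]
        simp only [M.e_apply, sum_ite_eq', mem_univ, if_true]
        push_cast at hn
        omega
      exact ((ih _ _ _ h6 h5 h7 _ h4).add (s.mono hu hc)).cast rfl (sub_add_cancel _ _)
  exact key (∑ j, (c j - l j) + 1).toNat c r β le_rfl h (by omega)

theorem box_b (E : EOut) (k0 : 0 < b₀) (k1 : b₀ ≤ 1 / 2) (hR : StRESY b₀) : StBOX b₀ := by
  intro f M hM A hA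
  choose G0 h1 h2 h3 using fun o => hR f M hM o A hA
  have b := E.bas 3 f M hM
  have sh := E.h 3 f M hM
  let G : Set ((M.J → ℤ) × KK 3) := (⋃ o, G0 o) ∪ (Set.range (fun j => (M.e j, 1)) ∪
    ({(-M.aa, ip 3 f), (M.aa, (ip 3 f)⁻¹)} ∪ Set.range fun l => (0, ip 3 (MvPolynomial.X l))))
  have s : Std f M G := by
    refine ⟨hM, b, sh, ?_, fun j => Or.inr (Or.inl ⟨j, rfl⟩), Or.inr (Or.inr (Or.inl (Or.inl rfl))),
      Or.inr (Or.inr (Or.inl (Or.inr rfl))), fun l => Or.inr (Or.inr (Or.inr ⟨l, rfl⟩))⟩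
    rintro p (hp | ⟨j, rfl⟩ | (rfl | rfl) | ⟨l, rfl⟩)
    · obtain ⟨o, ho⟩ := Set.mem_iUnion.1 hp
      exact h2 o p ho
    · have := ip_mem sh b 1 (c := M.e j) fun i => by
        rw [M.e_apply]
        split_ifs <;> simp
      rwa [map_one] at this
    · exact fun V _ => b.gen_oc _ _ _ (b.gen_f V)
    · intro V _
      have := b.gen_oc _ _ _ (b.gen_inv _ _ _ (b.gen_f V))
      rwa [neg_neg] at this
    · exact ip_mem sh b _ le_rfl
  refine ⟨G, (Set.finite_iUnion h1).union ((Set.finite_range _).union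
    ((Set.toFinite _).union (Set.finite_range _))), s.mem, fun c m r β h g hg => ?_⟩
  have hp : ∀ n : ℕ, g ^ n ∈ M.H (n • c) := fun n V hV => b.oc_pow _ _ _ n (hg V hV)
  rcases h.1.eq_or_lt with h0 | h0
  · have e : r.den • c = r.num • M.aa := M.q_inj (by
      have hβ : β = 0 := funext fun j => by
        have := h.2.1 j
        rw [← h0] at this
        exact le_antisymm this.2 (by simpa using this.1)
      rw [M.q_nsmul, M.q_zsmul, h.2.2, ← h0, hβ, zero_smul, zero_add, zero_add,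
        ← Nat.cast_smul_eq_nsmul ℚ, smul_smul, mul_comm, Rat.mul_den_eq_num])
    exact ⟨r.den, r.pos, e ▸ s.base r.num (e ▸ hp r.den)⟩
  · obtain ⟨n, hn⟩ := exists_nat_ge (2 / m)
    rw [div_le_iff₀ h0] at hn
    have n0 : 0 < n := Nat.pos_of_ne_zero fun e => by
      rw [e, Nat.cast_zero, zero_mul] at hn
      linarith
    have n1 : (0 : ℚ) ≤ n := Nat.cast_nonneg n
    refine ⟨n, n0, desc k0 k1 s (A := A) (fun o c m r β h e g hg => (h3 o c m r β h e g hg).mono
      fun p hp => Or.inl (Set.mem_iUnion.2 ⟨o, hp⟩)) hn (r := n * r) (β := (n : ℚ) • β)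
      ⟨by linarith, fun j => ?_, ?_⟩ _ (hp n)⟩
    · have a1 := mul_le_mul_of_nonneg_left (h.2.1 j).1 n1
      have a2 := mul_le_mul_of_nonneg_left (h.2.1 j).2 n1
      rw [Pi.smul_apply, smul_eq_mul]
      constructor <;> linarith
    · rw [M.q_nsmul, h.2.2, ← Nat.cast_smul_eq_nsmul ℚ, smul_add, smul_add, smul_smul, smul_smul]

theorem sbox_b (E : EOut) (h4 : StmtS4) (k0 : 0 < b₀) (k1 : b₀ ≤ 1 / 2) : StBOX b₀ :=
  box_b E k0 k1 (resy_b E (rowFINM E (rowFINGR (rowFING (M3C.rowFIN M3C.rowACF))))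
    (rowRES E rowGOR rowPOLY h4 (rowDIO E (rowOPN E))) (tr_b E k0))

end Pool.Agent.MP_ee8c61_ag.Q3FG
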