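import Pool.Agent.MP_ee8c61_ag.M3CH.Asm
import Pool.Agent.MP_ee8c61_ag.Q3FG.BoxB
import Pool.Agent.MP_ee8c61_ag.Q3FG.Cb

/-!
Chambers along a segment that starts at an adjoint divisor with a fractional boundary.
-/

namespace Pool.Agent.MP_ee8c61_ag.Q3FG

open M3 M3E M3FG M3CH Finset

section

variable {J : Type} [Fintype J] [DecidableEq J]

/-- The vertices of a box. -/
def vx (B : J → ℚ) (κ : ℚ) : Option J → J → ℚ
  | none => B
  | some j => B - κ • Pi.single j 1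

theorem sum_vx (B : J → ℚ) (κ : ℚ) (α : Option J → ℚ) (j : J) :
    (∑ i, α i • vx B κ i) j = (∑ i, α i) * B j - κ * α (some j) := by
  have h : ∀ i : J, (α (some i) • vx B κ (some i)) j =
      α (some i) * B j - if i = j then κ * α (some i) else 0 := fun i => by
    by_cases h : i = j
    · subst h; simp [vx]; ring
    · simp [vx, h, Ne.symm h]
  rw [Finset.sum_apply, Fintype.sum_option, Fintype.sum_option, Finset.sum_congr rfl fun i _ => h i,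
    Finset.sum_sub_distrib, ← Finset.sum_mul, Finset.sum_ite_eq' univ j, if_pos (mem_univ j)]
  simp only [vx, Pi.smul_apply, smul_eq_mul]
  ring

end

variable {f : Po 3} {M : Mod 3}

theorem reg_b (E : EOut) (h4 : StmtS4) (hM : M.OK f) {d : M.J → ℚ} (hd : ∀ j, 0 < d j ∧ d j ≤ 1) :
    ∃ (Γ : Gn M) (H : M.J → ℚ) (T γ : ℚ) (Wl : Finset (Fm M.J)), 0 < T ∧ 0 < γ ∧
    Arr Wl (M.q M.aa) ∧ ∀ h : M.J → ℚ, (∀ j, |h j - H j| < γ) → M.AmpQ h ∧
      M.AmpQ (M.q M.kk + d + T • h) ∧ ∀ t : ℚ, 0 ≤ t → t ≤ T → Off Wl (M.q M.kk + d + t • h) →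
        ∀ c, M.q c ∈ Cell Wl (M.q M.kk + d + t • h) → Γ.Reg c := by
  classical
  have hO := M3CH.rowOPN E.aq
  have aM := E.aq 3 f M hM
  obtain ⟨κ, k0, kh, kd⟩ := RTR.ex_lb (fun j => d j / 2) (fun j => half_pos (hd j).1) (1 / 2)
    (by norm_num)
  have k2 : 0 < 2 * κ := by positivity
  obtain ⟨w, hw⟩ := hM.amp
  have hH := aM.of_amp w hw
  obtain ⟨ε0, h0, h1⟩ := aM.opn (M.q w) (M.q M.kk + d) hH
  obtain ⟨γ1, g1, k1⟩ := hO 3 f M hM _ hH
  obtain ⟨γ2, g2, k2'⟩ := hO 3 f M hM _ (h1 ε0 h0.le le_rfl)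
  obtain ⟨ε, γ3, σ, n, hε, g3, hσ, k3⟩ := rowCOV M.J (M.q M.aa) ((2 * κ)⁻¹ • M.q w) ε0⁻¹ fun j => by
    have := hM.pos j
    simpa [Mod.aa] using this
  let A : Fin n → M.J → ℚ := fun s => ((((s : ℕ) : ℚ) + 1) * σ) • M.q w
  have hAs : ∀ s, M.AmpQ (A s) := fun s => aM.smul _ _ (by positivity) hH
  choose G0 hG0 hG1 hG2 using fun s => sbox_b E h4 k0 kh f M hM (A s) (hAs s)
  let G : Fin n → Finset ((M.J → ℤ) × KK 3) := fun s => (hG0 s).toFinset
  choose Wl hW1 hW2 using fun s =>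
    rowARR M.J (Option M.J) (vx (M.q M.kk + A s + d) κ) (M.q M.aa)
  have hG : ∀ p ∈ univ.biUnion G, p.2 ∈ M.H p.1 := fun p hp => by
    obtain ⟨s, _, hs⟩ := mem_biUnion.1 hp
    exact hG1 s p ((hG0 s).mem_toFinset.1 hs)
  refine ⟨RREG.gn _ hG, M.q w, ε0⁻¹, min γ1 (min γ2 (2 * κ * γ3)), univ.biUnion Wl, inv_pos.2 h0,
    lt_min g1 (lt_min g2 (mul_pos k2 g3)), fun y hy => ?_, fun h hh => ⟨k1 h fun j => ?_, ?_, ?_⟩⟩
  · obtain ⟨s, _, hs⟩ := mem_biUnion.1 hy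
    exact hW1 s y hs
  · exact (hh j).trans_le (min_le_left _ _)
  · have h2 := aM.smul _ _ (inv_pos.2 h0) (k2' (h + ε0 • (M.q M.kk + d)) fun j => by
      rw [Pi.add_apply, Pi.add_apply (M.q w), add_sub_add_right_eq_sub]
      exact (hh j).trans_le ((min_le_right _ _).trans (min_le_left _ _)))
    rwa [smul_add, smul_smul, inv_mul_cancel₀ h0.ne', one_smul, add_comm] at h2
  · intro t t1 t2 ho c hc
    obtain ⟨s, r, u, u0, u1, e⟩ := k3 ((2 * κ)⁻¹ • h) (fun j => by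
      have := (hh j).trans_le ((min_le_right _ _).trans (min_le_right _ _))
      rw [Pi.smul_apply, Pi.smul_apply, ← smul_sub, smul_eq_mul, abs_mul, abs_of_pos (inv_pos.2 k2),
        inv_mul_lt_iff₀ k2]
      exact this) t (by linarith) t2
    have e' : ∀ j, t * h j = A s j - 2 * κ * u j + 2 * κ * r * M.q M.aa j := fun j => by
      have := congrFun e j
      simp only [Pi.add_apply, Pi.sub_apply, Pi.smul_apply, smul_eq_mul, A] at this ⊢
      have k : (2 * κ) * (2 * κ)⁻¹ = 1 := mul_inv_cancel₀ k2.ne'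
      linear_combination (2 * κ) * this +
        ((((s : ℕ) : ℚ) + 1) * σ * M.q w j - t * h j) * k
    have hsub : Wl s ⊆ univ.biUnion Wl := subset_biUnion_of_mem Wl (mem_univ s)
    obtain ⟨_, _, _, _, _, h2⟩ := hW2 s 0 0 (fun _ _ _ _ => by simp) _ (ho.mono hsub) (by
      refine ⟨fun i => i.elim (1 - 2 * ∑ j, u j) fun j => 2 * u j, 2 * κ * r, fun i => ?_, ?_⟩
      · rcases i with _ | j
        · change 0 ≤ 1 - 2 * ∑ j, u j
          linarith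
        · exact mul_nonneg zero_le_two (u0 j)
      · funext j
        rw [Pi.add_apply _ ((2 * κ * r) • M.q M.aa), sum_vx, Fintype.sum_option]
        simp only [Option.elim, ← Finset.mul_sum, Pi.add_apply, Pi.smul_apply, smul_eq_mul, e']
        ring)
    obtain ⟨α, τ, a0, _, h3⟩ := h2 _ (Cell.mono hsub _ hc)
    refine RREG.reg _ hG c fun g hg => ?_
    have a1 : 0 ≤ ∑ i, α i := sum_nonneg fun i _ => a0 i
    obtain ⟨m, hm, h4⟩ := hG2 s c (∑ i, α i) τ (fun j => (∑ i, α i) * d j - κ * α (some j))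
      ⟨a1, fun j => by
        have h5 : α (some j) ≤ ∑ i, α i := single_le_sum (fun i _ => a0 i) (mem_univ _)
        have h6 : 0 ≤ α (some j) := a0 _
        have h7 := mul_le_mul_of_nonneg_left h5 k0.le
        have h8 := mul_le_mul_of_nonneg_left (kd j) a1
        have h9 := mul_le_mul_of_nonneg_left (hd j).2 a1
        have := mul_nonneg k0.le h6
        constructor <;> linarith, by
        funext j
        rw [h3, Pi.add_apply _ (τ • M.q M.aa), sum_vx]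
        simp only [Pi.add_apply, Pi.smul_apply, smul_eq_mul]
        ring⟩ g hg
    refine ⟨m, hm, h4.mono fun p hp => ?_⟩
    exact mem_coe.2 (mem_biUnion.2 ⟨s, mem_univ s, (hG0 s).mem_toFinset.2 hp⟩)

/-- The last chamber in which a divisor is alive. -/
theorem cham (E : EOut) (h4 : StmtS4) (hM : M.OK f) {d : M.J → ℚ} (hd : ∀ j, 0 < d j ∧ d j ≤ 1)
    (o : M.J) : ∃ (C : Cb f M) (h : M.J → ℚ) (t s : ℚ), M.AmpQ h ∧ 0 ≤ t ∧ t < s ∧
      M.q M.kk + d + t • h ∈ C.U ∧ Inn C.U (M.q M.kk + d + s • h) ∧ C.Alive o ∧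
      (∀ x ∈ C.U, ∀ r : ℚ, x + r • M.q M.aa ∈ C.U) ∧
      (t = 0 ∨ ∃ s₀, s₀ < t ∧ ∀ s', s₀ < s' → s' < t → ¬Live M o (M.q M.kk + d + s' • h)) := by
  classical
  obtain ⟨Γ, H, T, γ, W1, hT, hγ, h1, hh⟩ := reg_b E h4 hM hd
  obtain ⟨W0, h0, hW⟩ := rowMOD rowCELL E.bas E.h E.dc E.b1 (rowVLP rowARR E.bas) 3 f M hM Γ
  obtain ⟨W, D, r, P, hWf, hr, hP⟩ := hW (W0 ∪ W1) subset_union_left
  have ha : Arr (W0 ∪ W1) (M.q M.aa) := fun w hw => (mem_union.1 hw).elim (h0 w) (h1 w)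
  generalize M.q M.kk + d = μ at hh ⊢
  obtain ⟨h, g1, a4, -⟩ := rowGEN M.J (W0 ∪ W1) μ H γ hγ fun w hw => (ha w hw).1
  obtain ⟨a1, a2, k3⟩ := hh h g1
  have BM := E.bas 3 f M hM
  have AM := E.aq 3 f M hM
  obtain ⟨δ, hδ, a7⟩ := AM.opn _ (-h) a2
  obtain ⟨t, s, b1, b2, b3, b4, b5, b6, b7⟩ := seg μ h a4 hT hδ
    (fun s => Live M o (μ + s • h)) fun s k1 k2 => by
      have := a7 (T - s) (by linarith) (by linarith)
      rw [show μ + T • h + (T - s) • -h = μ + s • h by module] at this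
      exact live_of_semi BM o (AM.semi _ this)
  have hm := hP _ b5 fun c hc =>
    k3 s (by linarith) b3 (b5.mono subset_union_right) c (Cell.mono subset_union_right _ hc)
  have hi : Inn (Cell (W0 ∪ W1) (μ + s • h)) (μ + s • h) := fun u =>
    Cell.near b5 (Cell.self _ _) u fun w hw e => absurd e (b5 w hw)
  exact ⟨⟨W, D, Cell (W0 ∪ W1) (μ + s • h), P (Cell (W0 ∪ W1) (μ + s • h)), hWf,
    fun _ k _ k' => Cell.add k k', fun _ k _ k' => Cell.smul k k'.le, fun _ k => hm.mult hr k,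
    _, hi⟩, h, t, s, a1, b1, b2, b6, hi, hm.alive BM (E.bas 3 f W hWf) D hr b5 b4,
    fun x k r w hw => by
      rw [map_add w x, map_smul, (ha w hw).2, smul_zero, add_zero]
      exact k w hw, b7.imp id fun k => k.2.2⟩

theorem live_aa (B : Bas f M) (hM : M.OK f) {o : M.J} {x : M.J → ℚ} (h : Live M o x) (r : ℚ) :
    Live M o (x + r • M.q M.aa) := by
  obtain ⟨m, c, h1, h2, g, h3, h4⟩ := h
  have g0 : g ≠ 0 := fun e => h4 (Or.inl e)
  have f0 := RRESY.f_ne hM B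
  have h5 := ((B.oc_v o c g).1 (h3 _ (B.ov_v o))).resolve_left g0
  have h6 := ((B.gen_v o _ _).1 (B.gen_f _)).2
  have h7 := RRESY.fz_H B (-(m * r.num))
  rw [neg_smul, neg_neg] at h7
  refine ⟨r.den * m, r.den • c + (m * r.num : ℤ) • M.aa, Nat.mul_pos r.den_pos h1, ?_,
    g ^ r.den * ip 3 f ^ (-(m * r.num : ℤ)), fun V hV =>
      B.oc_mul V _ _ _ _ (B.oc_pow V _ _ _ (h3 V hV)) (h7 V hV), fun e => ?_⟩
  · rw [M.q_add, M.q_nsmul, M.q_zsmul, h2]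
    funext j
    simp only [Pi.add_apply, Pi.smul_apply, smul_eq_mul]
    simp only [nsmul_eq_mul]
    push_cast
    rw [← Rat.mul_den_eq_num r]
    ring
  · have h8 := e.resolve_left (mul_ne_zero (pow_ne_zero _ g0) (zpow_ne_zero _ f0))
    have h9 : (M.v o).v g = -c o := le_antisymm (not_lt.1 fun k => h4 (Or.inr (by omega))) h5
    rw [(M.v o).mul _ _ (pow_ne_zero _ g0) (zpow_ne_zero _ f0), DV.pow, DV.zpow, h9, h6] at h8
    simp only [Pi.add_apply, Pi.smul_apply, Pi.neg_apply, smul_eq_mul, nsmul_eq_mul, Pi.mul_apply,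
      Pi.natCast_apply] at h8
    linarith

/-- The same, normalised at the divisor. -/
theorem cham2 (E : EOut) (h4 : StmtS4) (hM : M.OK f) {d : M.J → ℚ} (hd : ∀ j, 0 < d j ∧ d j ≤ 1)
    (o : M.J) (la : ℚ) {a : M.J → ℚ} (ha : a = M.q M.kk + d - la • M.q M.aa) :
    ∃ (C : Cb f M) (h : M.J → ℚ) (t s : ℚ), M.AmpQ h ∧ h o = 0 ∧ 0 ≤ t ∧ t < s ∧
      a + t • h ∈ C.U ∧ Inn C.U (a + s • h) ∧ Inn C.U (M.q M.kk + d + s • h) ∧ C.Alive o ∧
      (t = 0 ∨ ∃ s₀, s₀ < t ∧ ∀ s', s₀ < s' → s' < t → ¬Live M o (a + s' • h)) := by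
  obtain ⟨C, h, t, s, h1, h2, h3, h5, h6, h7, h8, h9⟩ := cham E h4 hM hd o
  have B := E.bas 3 f M hM
  have a0 : (M.a o : ℚ) ≠ 0 := Nat.cast_ne_zero.2 (hM.pos o).ne'
  obtain ⟨κ, hκ⟩ : ∃ κ : ℚ, κ = -(h o / M.a o) := ⟨_, rfl⟩
  have inn : ∀ r : ℚ, Inn C.U (M.q M.kk + d + s • h + r • M.q M.aa) := fun r u => by
    obtain ⟨δ, k1, k2⟩ := h6 u
    exact ⟨δ, k1, add_right_comm _ (δ • u) _ ▸ h8 _ k2 r⟩
  have e : ∀ t : ℚ, a + t • (h + κ • M.q M.aa) =
      M.q M.kk + d + t • h + (t * κ - la) • M.q M.aa := fun t => by rw [ha]; module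
  refine ⟨C, h + κ • M.q M.aa, t, s, (E.aq 3 f M hM).add _ _ h1 ⟨κ.den, κ.num • M.aa, κ.den_pos,
    B.free_aa _, by rw [M.q_zsmul, ← Nat.cast_smul_eq_nsmul ℚ, smul_smul, Rat.den_mul_eq_num]⟩,
    by simp [hκ, Mod.aa, a0], h2, h3, e t ▸ h8 _ h5 _, e s ▸ inn _, ?_, h7,
    h9.imp id fun ⟨s₀, k1, k2⟩ => ⟨s₀, k1, fun s' k3 k4 k5 => k2 s' k3 k4 ?_⟩⟩
  · have := inn (s * κ)
    rwa [add_assoc, mul_smul, ← smul_add] at this
  · have := live_aa B hM k5 (-(s' * κ - la))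
    rwa [e, neg_smul, add_neg_cancel_right] at this

end Pool.Agent.MP_ee8c61_ag.Q3FG
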