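import Pool.Agent.MP_ee8c61_ag.M3E.RJd
import Pool.Agent.MP_ee8c61_ag.M3E.Asm
import Pool.Agent.MP_ee8c61_ag.M3B1.Basic

/-! Sections with poles along exceptional divisors only are polynomials. -/

namespace Pool.Agent.MP_ee8c61_ag.Q3FG

open H59 hiding pd
open M3 M3E Finset
open M3B1 (pd)

variable {N : ℕ}

theorem red (x : KK N) : ∃ a b : Po N, b ≠ 0 ∧ IsRelPrime a b ∧ ip N b * x = ip N a := by
  obtain ⟨a, b, h1, h2⟩ := IsFractionRing.exists_reduced_fraction (Po N) x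
  exact ⟨a, b, nonZeroDivisors.coe_ne_zero b, h1, by
    rw [← h2, mul_comm]; exact IsLocalization.mk'_spec _ a b⟩

/-- The local ring of a prime polynomial. -/
def lq {q : Po N} (hq : Prime q) : Vl N where
  carrier := {x | ∃ s a : Po N, ¬q ∣ s ∧ ip N s * x = ip N a}
  mul_mem' := fun {x y} ⟨s, a, h1, h2⟩ ⟨s', a', h3, h4⟩ =>
    ⟨s * s', a * a', fun e => (hq.dvd_or_dvd e).elim h1 h3, by
      rw [map_mul, map_mul, ← h2, ← h4]; ring⟩
  one_mem' := ⟨1, 1, hq.not_dvd_one, by simp⟩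
  add_mem' := fun {x y} ⟨s, a, h1, h2⟩ ⟨s', a', h3, h4⟩ =>
    ⟨s * s', a * s' + a' * s, fun e => (hq.dvd_or_dvd e).elim h1 h3, by
      rw [map_add, map_mul, map_mul, map_mul, ← h2, ← h4]; ring⟩
  zero_mem' := ⟨1, 0, hq.not_dvd_one, by simp⟩
  neg_mem' := fun {x} ⟨s, a, h1, h2⟩ => ⟨s, -a, h1, by rw [map_neg, ← h2]; ring⟩
  mem_or_inv_mem' := fun x => by
    obtain ⟨a, b, h0, h1, h2⟩ := red x
    by_cases e : q ∣ b
    · have e' : ¬q ∣ a := fun e' => hq.not_unit (h1 e' e)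
      have x0 : x ≠ 0 := fun k => e' (by
        rw [k, mul_zero, eq_comm] at h2
        rw [M3B1.ip_inj (h2.trans (map_zero _).symm)]
        exact dvd_zero q)
      exact Or.inr ⟨a, b, e', by rw [← h2, mul_inv_cancel_right₀ x0]⟩
    · exact Or.inl ⟨b, a, e, h2⟩

theorem lq_ov {q : Po N} (hq : Prime q) : Ov (lq hq) := fun p => ⟨1, p, hq.not_dvd_one, by simp⟩

theorem lq_pd {q : Po N} (hq : Prime q) (l : Fin N) {x : KK N} (hx : x ∈ lq hq) :
    pd N l x ∈ lq hq := by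
  obtain ⟨s, a, h1, h2⟩ := hx
  refine ⟨s * s, s * MvPolynomial.pderiv l a - MvPolynomial.pderiv l s * a,
    fun e => (hq.dvd_or_dvd e).elim h1 h1, ?_⟩
  have h3 := congrArg (pd N l) h2
  rw [Derivation.leibniz, M3B1.pd_ip, M3B1.pd_ip, smul_eq_mul, smul_eq_mul] at h3
  rw [map_sub, map_mul, map_mul, map_mul, ← h3, ← h2]
  ring

theorem poly_of_H (E : EOut) {f : Po N} {M : Mod N} (hM : M.OK f) {c : M.J → ℤ}
    (hc : ∀ j, M.k j = 0 → c j ≤ 0) {g : KK N} (hg : g ∈ M.H c) : ∃ p, ip N p = g := by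
  have B := E.bas N f M hM
  obtain ⟨a, b, h0, h1, h2⟩ := red g
  by_cases hu : IsUnit b
  · obtain ⟨u, rfl⟩ := hu
    exact ⟨↑u⁻¹ * a, by rw [map_mul, ← h2, ← mul_assoc, ← map_mul, u.inv_mul, map_one, one_mul]⟩
  obtain ⟨q, q1, q2⟩ := WfDvdMonoid.exists_irreducible_factor hu h0
  have hq : Prime q := q1.prime
  obtain ⟨β, hβ⟩ := hM.cov _ (lq_ov hq)
  obtain ⟨U, hU, e⟩ := hM.det β
  have one : (Matrix.of fun l i => M.S.D β i (M.S.r l)) *
      (Matrix.of fun i l => pd N l (M.S.z β i)) = 1 := by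
    ext l l'
    rw [Matrix.mul_apply, Matrix.one_apply, hM.r]
    have := (E.der N f M hM).chain (pd N l') β (ip N (MvPolynomial.X l))
    rw [M3B1.pd_X] at this
    simp only [Matrix.of_apply, mul_comm (M.S.D _ _ _), ← this, eq_comm]
  have m0 : M.mon β M.kk ∈ lq hq := hβ _ (B.mon_mem β _ fun j => Int.natCast_nonneg _)
  have uU := RJd.un_isU hβ hU
  have u : Un (lq hq) (M.mon β M.kk) := by
    refine Un.of_mul (h := (U : KK N) * (Matrix.of fun i l => pd N l (M.S.z β i)).det) ?_ m0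
      (mul_mem uU.2.1 (RJd.det_mem _ _ fun i l => lq_pd hq l (hβ _ (M.S.z_mem β i))))
    rw [← mul_assoc, mul_comm _ (U : KK N), ← e, ← Matrix.det_mul, one, Matrix.det_one]
    exact un_one
  have k0 : ∀ j, M.Thru (lq hq) j → M.k j = 0 := fun j hj => by
    obtain ⟨a1, -, -, a2⟩ := B.in_v β _ j hβ hj
    have := a2 _ (B.mon_mem β _ fun j => Int.natCast_nonneg _) u
    rw [B.v_mon β j _ a1] at this
    exact_mod_cast this
  have h3 := B.oc_mono _ c 0 g (fun j hj => hc j (k0 j hj)) (hg _ (lq_ov hq)) β hβ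
  rw [B.mon_zero, mul_one] at h3
  obtain ⟨s, a', h4, h5⟩ := h3
  have h6 : s * a = b * a' := M3B1.ip_inj (by rw [map_mul, map_mul, ← h2, ← h5]; ring)
  exact absurd (h1 ((hq.dvd_or_dvd (h6 ▸ q2.mul_right a')).resolve_left h4) q2) hq.not_unit

end Pool.Agent.MP_ee8c61_ag.Q3FG
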