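import Pool.Agent.MP_ee8c61_ag.Q3P.FK

/-! A contracted surface carries a curve on which the difference of the degrees is negative. -/

namespace Pool.Agent.MP_ee8c61_ag.Q3FG

open M3 M3RESID M3F

theorem surf {L : Type} [Field L] [Algebra ℂ L] (C : M3RESID.Co L 2)
    (hf : FiniteDimensional (IntermediateField.adjoin ℂ (Set.range C.z)) L) {x : Fin 3 → L}
    {S0 S1 : Finset L} {n0 n1 : DV L → ℚ} {p0 p1 : ℕ} (hp : 0 < p0) {s : L} (hs : s ∈ S0)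
    (s0 : s ≠ 0) (h1 : ∃ s ∈ S1, s ≠ 0) (d0 : ∀ Γ, Cv x Γ → Dg S0 Γ (n0 Γ))
    (d1 : ∀ Γ, Cv x Γ → Dg S1 Γ (n1 Γ)) (big : ∀ X : VF L, (∀ g ∈ RF x S1, X g = 0) → X = 0)
    (small : ∃ X : VF L, X ≠ 0 ∧ ∀ g ∈ RF x S0, X g = 0)
    (hn : ∀ Γ, Cv x Γ → (∀ g ∈ RF x S0, Γ.v g = 0) → ¬(Null x S0 Γ ∧ Null x S1 Γ) →
      p0 * n1 Γ ≤ p1 * n0 Γ) : False := by
  have := cz L
  have key : ∀ Γ, Cv x Γ → (∀ g ∈ RF x S0, Γ.v g = 0) → ¬(Null x S0 Γ ∧ Null x S1 Γ) →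
      ∀ σ ∈ S1, σ ^ p0 / s ^ p1 ∈ Γ.F 0 := fun Γ a1 a2 a3 σ hσ => by
    by_cases σ0 : σ = 0
    · exact Or.inl (by rw [σ0, zero_pow hp.ne', zero_div])
    obtain ⟨r, ⟨g1, g2, -⟩, g3⟩ := d0 Γ a1
    have g4 := a2 _ (rat_mem x g1 hs)
    rw [Γ.div s0 g2, sub_eq_zero] at g4
    have g5 := mul_le_mul_of_nonneg_left (dg_le (d1 Γ a1) hσ σ0) (Nat.cast_nonneg p0)
    have g6 := hn Γ a1 a2 a3
    refine Or.inr ?_
    rw [Γ.div (pow_ne_zero _ σ0) (pow_ne_zero _ s0), Γ.pow, Γ.pow, g4]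
    have : (0 : ℚ) ≤ p0 * (Γ.v σ : ℚ) - p1 * (Γ.v r : ℚ) := by rw [g3]; linarith
    exact_mod_cast this
  have fin : ∀ Y : VF L, (∀ l, Y (x l) = 0) → (∀ σ ∈ S1, Y (σ ^ p0 / s ^ p1) = 0) → Y = 0 :=
    fun Y y1 y2 => big Y fun g hg => (?_ : RF x S1 ≤ cst {Y}) hg Y rfl
  swap
  · have m : ∀ g, Y g = 0 → g ∈ cst {Y} := fun g k X e => Set.mem_singleton_iff.1 e ▸ k
    rw [RF, IntermediateField.adjoin_le_iff]
    rintro _ (⟨l, rfl⟩ | ⟨r, hr, r', hr', rfl⟩)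
    · exact m _ (y1 l)
    have k := div_mem (m _ (y2 r' hr')) (m _ (y2 r hr)) Y rfl
    rw [div_div_div_cancel_right₀ (pow_ne_zero _ s0), ← div_pow, Derivation.leibniz_pow,
      smul_eq_mul, nsmul_eq_mul, mul_eq_zero, mul_eq_zero] at k
    rcases k with k | k | k
    · exact absurd k (Nat.cast_ne_zero.2 hp.ne')
    · rw [pow_eq_zero_iff'] at k
      exact k.1 ▸ zero_mem _
    · exact m _ k
  by_cases hA : ∃ t ∈ RF x S0, ∃ X : VF L, X t ≠ 0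
  · obtain ⟨t, hm, ht⟩ := hA
    obtain ⟨X, x0, hX⟩ := small
    obtain ⟨κ, rfl⟩ := fib_mul C ht (hX t hm)
    have le : RF x S0 ≤ Kz t := fun g hg => (mem_Kz C ht).2
      ((mul_eq_zero.1 (show κ * fib C t g = 0 from hX g hg)).resolve_left fun e =>
        x0 (by rw [e, zero_smul]))
    obtain ⟨i, hi⟩ := fib_ne C ht
    refine hi (by
      rw [fin (fib C t) (fun l => le (x_mem _ _ l) _ (fib_self C)) fun σ hσ => ?_]
      · rfl
      refine (mem_Kz C ht).1 (by_contra fun e => ?_)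
      obtain ⟨Γ, hΓ, h2⟩ := exists_pole C hf ht e
      have cv : Cv x Γ := ⟨hΓ.1, fun l => hΓ.2 _ (le (x_mem _ _ l)), t,
        hΓ.nc (self_mem_Kz t) (ne_of_der ht)⟩
      refine (key Γ cv (fun g hg => hΓ.unit (le hg)) (fun ⟨hn, _⟩ => ?_) σ hσ).elim
        (fun k => e (k ▸ zero_mem _)) h2.not_ge
      obtain ⟨s, hs, -⟩ := d0 Γ cv
      have k : ∀ g ∈ RF x S0, ¬NC Γ g → g ∈ (⊥ : IntermediateField ℂ L) := fun g hg e => by
        by_contra x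
        exact e (hΓ.nc (le hg) fun c y => x (y ▸ IntermediateField.algebraMap_mem _ c))
      have : RF x S0 ≤ ⊥ := by
        rw [RF, IntermediateField.adjoin_le_iff]
        rintro _ (⟨l, rfl⟩ | ⟨r, hr, r', hr', rfl⟩)
        · exact k _ (x_mem _ _ l) (hn.1 l)
        · rw [← div_div_div_cancel_right₀ hs.2.1]
          exact div_mem (k _ (rat_mem _ hs.1 hr') (hn.2 s hs r' hr'))
            (k _ (rat_mem _ hs.1 hr) (hn.2 s hs r hr))
      obtain ⟨c, hc⟩ := IntermediateField.mem_bot.1 (this hm)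
      exact ne_of_der ht c hc.symm)
  · have cs : ∀ g ∈ RF x S0, ∃ c : ℂ, g = algebraMap ℂ L c := fun g hg => by
      by_contra! e
      exact hA ⟨g, hg, exists_der C hf (tr_of_nc e)⟩
    have hx := fun l => cs _ (x_mem x S0 l)
    have h2 := fin (C.D 0) (fun l => by
      obtain ⟨c, e⟩ := hx l
      rw [e, Derivation.map_algebraMap]) fun σ hσ => by
      obtain ⟨c, e⟩ := Q3P.fix0 C hf hx h1 big fun Γ a1 a2 => key Γ a1 (fun g hg => by
        obtain ⟨c, rfl⟩ := cs g hg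
        exact Γ.cst c) (fun k => a2 k.2) σ hσ
      rw [e, Derivation.map_algebraMap]
    have := C.dual 0 0
    rw [h2] at this
    simp at this

end Pool.Agent.MP_ee8c61_ag.Q3FG
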