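import Pool.Agent.MP_ee8c61_ag.M3K.RWall
import Pool.Agent.MP_ee8c61_ag.M3CH.RAl
import Pool.Agent.MP_ee8c61_ag.Q3FG.Cb

/-!
On a dead divisor two ratios of sections are dependent.
-/

namespace Pool.Agent.MP_ee8c61_ag.Q3FG

open H59 M3 M3E Finset
open M3K (Bs SUl STr4 SNg)
open M3K.RWall
open M3CH (Live)

theorem wall (hE : EOut) (hU : SUl) (hT : STr4) (hN : SNg) {f : Po 3} {M : Mod 3} (C : Cb f M)
    (hM : M.OK f) {o : M.J} (hA : C.Alive o) {x h : M.J → ℚ} {t : ℚ} (hh : M.AmpQ h)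
    (hx : x + t • h ∈ C.U) (hD : ∃ s₀, s₀ < t ∧ ∀ s, s₀ < s → s < t → ¬Live M o (x + s • h))
    {m : ℕ} {c : M.J → ℤ} {c' : C.W.J → ℤ} (hc : M.q c = m • (x + t • h)) (hm : 0 < m)
    (hb : Mob C c c') {s : KK 3} (hs : s ∈ M.H c) (hg : M.Gen (M.v o).O c s) (τ : Fin 2 → KK 3)
    (h0 : Bs C.W ⊤ c' s (τ 0)) (h1 : Bs C.W ⊤ c' s (τ 1)) :
    ∃ Φ : MvPolynomial (Fin 2) ℂ, Φ ≠ 0 ∧ MvPolynomial.aeval τ Φ ∈ (M.v o).F 1 := by
  by_contra hn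
  push Not at hn
  have bM := hE.bas 3 f M hM
  have bW := hE.bas 3 f C.W C.ok
  have dc := hE.dc 3 f C.W M C.D C.ok hM
  have e1 : c' (C.D.e o) = c o :=
    Int.cast_injective (α := ℚ) ((congrFun hb.eq _).trans (hA (M.q c)))
  have e2 : ∀ j, c' (C.D.e j) ≤ c j := fun j => by
    have h2 := (ka hE C hM).le (M.q c) (by
      rw [hc, ← Nat.cast_smul_eq_nsmul ℚ]
      exact C.smul _ hx _ (Nat.cast_pos.2 hm)) (C.D.e j)
    rw [dc.pb_e, ← hb.eq] at h2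
    exact Int.cast_le.1 h2
  have e3 : ∀ x g, C.W.Gen (M.v o).O x g ↔ g ≠ 0 ∧ (M.v o).v g = -x (C.D.e o) := fun x g => by
    rw [← C.D.v o]
    exact bW.gen_v _ x g
  have s1 : s ∈ C.W.H c' := by
    have h2 := hb.H 1
    rw [one_nsmul, one_nsmul] at h2
    exact h2 ▸ hs
  have s2 : C.W.Gen (M.v o).O c' s := (e3 c' s).2 (e1.symm ▸ (bM.gen_v o c s).1 hg)
  obtain ⟨f0, f1⟩ := (bM.gen_v o _ _).1 (bM.gen_f (M.v o).O)
  obtain ⟨b, hb'⟩ := hM.ne o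
  obtain ⟨μ, w, hμ, -, hw⟩ := hh
  obtain ⟨e₀, he⟩ := hN 3 f C.W C.ok ⊤ (M.v o).O _ c' s (bM.ov_v o)
    (ck (M.v o) (M.η_ne b o) (hM.dv b o hb').2.1) (fun V a _ => s1 V a) s2
    (rv hU hT (bM.ov_v o) s2 f0 (fun h => by
      have h2 := ((M.v o).un_O.1 h).2
      have h3 := hM.pos o
      rw [h2] at f1
      simp only [Pi.neg_apply, neg_neg, Mod.aa] at f1
      omega) h0 h1 hn) (-C.D.pb w)
  obtain ⟨s₀, h2, h3⟩ := hD
  obtain ⟨n, h4⟩ := exists_nat_gt ((μ : ℚ) / (t - s₀))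
  obtain ⟨σ, h5, h6⟩ := he (n + e₀ + 1) (by omega)
  have h7 : n ≤ (n + e₀ + 1) * m := le_trans (by omega) (Nat.le_mul_of_pos_right _ hm)
  have h8 : 0 < (n + e₀ + 1) * m := Nat.mul_pos (by omega) hm
  generalize n + e₀ + 1 = e at h5 h6 h7 h8
  have h9 : (0 : ℚ) < (e * m : ℕ) := Nat.cast_pos.2 h8
  have k1 : σ ∈ M.H (e • c - w) := fun V a => by
    refine bM.oc_mono V _ _ σ (fun j _ => ?_) (dc.push _ (fun V a => h5 V a le_top) V a)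
    have := mul_le_mul_of_nonneg_left (e2 j) (Int.natCast_nonneg e)
    simp only [Dom.pf, Pi.add_apply, Pi.neg_apply, Pi.sub_apply, Pi.mul_apply, Pi.natCast_apply,
      nsmul_eq_mul, dc.pb_e]
    omega
  refine h3 (t - μ / (e * m : ℕ)) (by
    rw [lt_sub_comm, div_lt_iff₀ h9]
    rw [div_lt_iff₀ (sub_pos.2 h2)] at h4
    have : (n : ℚ) ≤ (e * m : ℕ) := Nat.cast_le.2 h7
    nlinarith) (sub_lt_self _ (div_pos (Nat.cast_pos.2 hμ) h9)) ⟨e * m, e • c - w, h8, (by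
    rw [M.q_sub, M.q_nsmul, hc, hw]
    funext j
    simp only [Pi.sub_apply, Pi.add_apply, Pi.smul_apply, Pi.mul_apply, Pi.natCast_apply,
      nsmul_eq_mul, smul_eq_mul]
    field_simp
    push_cast
    ring), σ, k1, fun k2 => ?_⟩
  obtain ⟨k3, k4⟩ := (e3 _ σ).1 h6
  have k5 := k2.resolve_left k3
  simp only [Pi.add_apply, Pi.neg_apply, Pi.sub_apply, Pi.mul_apply, Pi.natCast_apply,
    nsmul_eq_mul, dc.pb_e, e1] at k4 k5
  omega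

end Pool.Agent.MP_ee8c61_ag.Q3FG
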