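import Pool.Agent.MP_ee8c61_ag.M3I44.Kit
import Pool.Agent.MP_ee8c61_ag.M3.FKit2
import Pool.Agent.MP_ee8c61_ag.M3RESID.U3
import Pool.Agent.MP_ee8c61_ag.M3K.Out
import Pool.Agent.MP_ee8c61_ag.Q3FG.Cham
import Pool.Agent.MP_ee8c61_ag.Q3FG.Poly
import Pool.Agent.MP_ee8c61_ag.Q3FG.Wall
import Pool.Agent.MP_ee8c61_ag.Q3FG.AR
import Pool.Agent.MP_ee8c61_ag.Q3FG.Srf

/-! Log canonicity near the centre of a divisor from the exponents on the divisor. -/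

namespace Pool.Agent.MP_ee8c61_ag.Q3FG

open M3 M3E M3RESID M3I44 Finset
open M3K (Big Bs Nn KOut nn_succ)

variable {f : Po 3} {W : M3.Mod 3} {i : W.J} {k : Type} [Field k] [Algebra ℂ k] {P : Pl (KK 3) k}
  {c : W.J → ℤ} {T : Finset (KK 3)}

open Classical in
theorem sub_RF {s : KK 3} (hs : s ∈ T) :
    Set.range (fun l => P.π (xx 3 l)) ∪ (fun s' => P.π s' / P.π s) '' T ⊆
      RF (fun l => P.π (xx 3 l)) (T.image P.π) := by
  refine Set.Subset.trans ?_ (IntermediateField.subset_adjoin _ _)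
  refine Set.union_subset_union_right _ ?_
  rintro _ ⟨s', hs', rfl⟩
  exact ⟨_, mem_image_of_mem _ hs, _, mem_image_of_mem _ hs', rfl⟩

open Classical in
theorem big_RF (hE : EOut) (hK : KOut) (hW : W.OK f) (hP : P.o = W.v i) (hc : c i = 0)
    (hT : W.Gens c T) (hb : Big W i c) (Z : VF k)
    (hZ : ∀ g ∈ RF (fun l => P.π (xx 3 l)) (T.image P.π), Z g = 0) : Z = 0 := by
  have B := hE.bas 3 f W hW
  obtain ⟨s, s1, s2⟩ := hT.2 _ (B.ov_v i)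
  have s0 := gen_ne hW B hP hc (B.ov_v _) (hP ▸ le_rfl) s2
  have kill : ∀ u, Bs W ⊤ c s u → Z (P.π u) = 0 := fun u hu =>
    (cl_of hW B hP hc hT s1 s0 fun V h1 h2 => hu V h1 le_top h2).kill _ (sub_RF s1) hZ
  ext y
  obtain ⟨g, g1, rfl⟩ := P.surj y
  obtain ⟨u, u1, u2, u3⟩ := hK.bir 3 f W hW _ _ s hb (hT.1 s s1) s2 g (hP ▸ g1)
  rw [← hP] at u2
  have u4 := (DV.un_O _).1 u2
  have k1 := kill _ u3
  rw [P.mul u u2.2.1 g g1, Derivation.leibniz, kill _ u1, smul_zero, add_zero, smul_eq_mul] at k1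
  exact (mul_eq_zero.1 k1).resolve_left (ne_of_un u4.1 u4.2)

open Classical in
theorem small_RF (hE : EOut) (hW : W.OK f) (hP : P.o = W.v i) (hc : c i = 0) (hT : W.Gens c T)
    (C : M3RESID.Co k 2) {s : KK 3} (s1 : s ∈ T) (s0 : P.π s ≠ 0)
    (hw : ∀ τ : Fin 2 → KK 3, Bs W ⊤ c s (τ 0) → Bs W ⊤ c s (τ 1) →
      ∃ Φ : MvPolynomial (Fin 2) ℂ, Φ ≠ 0 ∧ MvPolynomial.aeval τ Φ ∈ P.o.F 1) :
    ∃ Z : VF k, Z ≠ 0 ∧ ∀ g ∈ RF (fun l => P.π (xx 3 l)) (T.image P.π), Z g = 0 := by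
  have B := hE.bas 3 f W hW
  let S : Set k := Set.range (fun l => P.π (xx 3 l)) ∪ (fun s' => P.π s' / P.π s) '' T
  have hS : ∀ y ∈ S, ∃ τ ∈ P.o.F 0, P.π τ = y ∧ Bs W ⊤ c s τ := by
    rintro _ (⟨l, rfl⟩ | ⟨s', hs', rfl⟩)
    · exact ⟨xx 3 l, hP ▸ B.ov_v i _, rfl, fun V hV _ _ => hV _⟩
    · obtain ⟨a1, a2⟩ := pl_div (sec_mem B hP hc (hT.1 s' hs')) (sec_mem B hP hc (hT.1 s s1)) s0
      exact ⟨s' / s, a1, a2, fun V hV _ hg => (B.oc_div V _ s' s hV hg).1 (hT.1 s' hs' V hV)⟩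
  have main : ∃ Z : VF k, Z ≠ 0 ∧ ∀ y ∈ S, Z y = 0 := by
    by_cases h1 : ∃ a ∈ S, ∃ Z : VF k, Z a ≠ 0
    · obtain ⟨a, ha, Z, hZ⟩ := h1
      refine ⟨M3F.fib C a, fun e => ?_, fun y hy => ?_⟩
      · obtain ⟨i, hi⟩ := M3F.fib_ne C ⟨Z, hZ⟩
        exact hi (by rw [e]; rfl)
      obtain ⟨τ, τ1, rfl, τ2⟩ := hS a ha
      obtain ⟨τ', τ3, rfl, τ4⟩ := hS y hy
      obtain ⟨Φ, Φ0, Φ1⟩ := hw ![τ, τ'] τ2 τ4
      obtain ⟨k1, k2⟩ := pl_aeval (P := P) (τ := ![τ, τ'])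
        (fun i => by fin_cases i; exacts [τ1, τ3]) Φ
      refine kill_dep hZ (M3F.fib_self C) Φ0 ?_
      rw [← (P.ker _ k1).2 Φ1, k2]
      congr 2
      funext i
      fin_cases i <;> rfl
    · push Not at h1
      refine ⟨C.D 0, fun e => ?_, fun y hy => h1 y hy _⟩
      have := C.dual 0 0
      rw [e] at this
      simp at this
  obtain ⟨Z, Z0, Z1⟩ := main
  refine ⟨Z, Z0, fun g hg => (IntermediateField.adjoin_le_iff.2 ?_ : _ ≤ M3F.cst {Z}) hg Z rfl⟩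
  have m : ∀ g ∈ S, g ∈ M3F.cst {Z} := fun g k X e => Set.mem_singleton_iff.1 e ▸ Z1 g k
  rintro _ (⟨l, rfl⟩ | ⟨_, h1, _, h2, rfl⟩)
  · exact m _ (Or.inl ⟨l, rfl⟩)
  · obtain ⟨u, hu, rfl⟩ := mem_image.1 h1
    obtain ⟨u', hu', rfl⟩ := mem_image.1 h2
    rw [← div_div_div_cancel_right₀ s0]
    exact div_mem (m _ (Or.inr ⟨u', hu', rfl⟩)) (m _ (Or.inr ⟨u, hu, rfl⟩))

open Classical in
theorem nn_of_null {Γ : DV k} (hL : Lv W i P Γ) (hc : c i = 0) (hT : W.Gens c T)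
    (hn : ¬Null (fun l => P.π (xx 3 l)) (T.image P.π) Γ) : Nn W (lift P Γ) c := by
  by_contra e
  refine hn ⟨fun l q => e ?_, fun s hs s' hs' q => e (hL.nn_of hT hc hs hs' q)⟩
  obtain ⟨g, g1, g2⟩ := hT.2 _ hL.ov
  obtain ⟨a, ha⟩ := hL.cov
  refine ⟨g, hT.1 g g1, xx 3 l * g, fun V hV a ha => ?_, g2, ?_⟩
  · rw [mul_assoc]
    exact mul_mem (hV _) (hT.1 g g1 V hV a ha)
  · rw [mul_div_cancel_right₀ _ (left_ne_zero_of_mul (g2 a ha).1)]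
    exact (hL.nc_x l).1 q

theorem pi_ip (h : Ov P.o.O) (S : Finset k) (p : Po 3) :
    P.π (ip 3 p) ∈ RF (fun l => P.π (xx 3 l)) S := by
  induction p using MvPolynomial.induction_on with
  | C a =>
    rw [← MvPolynomial.algebraMap_eq, AlgHom.commutes, (P.cst a).2]
    exact IntermediateField.algebraMap_mem _ a
  | add p q hp hq => rw [map_add, P.add _ (h p) _ (h q)]; exact add_mem hp hq
  | mul_X p l hp => rw [map_mul, P.mul _ (h p) _ (h _)]; exact mul_mem hp (M3F.x_mem _ S l)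

theorem sls_of (hE : EOut) (hK : KOut) (h4 : M3FG.StmtS4) : Q3.SLS := by
  classical
  intro f la M o e _ hM h0 he H
  have B := hE.bas 3 f M hM
  have ap : ∀ j, (0 : ℚ) < M.a j := fun j => Nat.cast_pos.2 (hM.pos j)
  have la0 : 0 < la := by
    have h1 : la * M.a o = M.k o + 1 := (sub_eq_zero.1 h0).symm
    exact (mul_pos_iff_of_pos_right (ap o)).1 (by rw [h1]; positivity)
  obtain ⟨d, hd⟩ : ∃ d : M.J → ℚ, d = fun j =>
    if M.k j = 0 ∧ 0 < M.ex la j then la * M.a j else 1 := ⟨_, rfl⟩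
  obtain ⟨a, ha⟩ : ∃ a, a = M.q M.kk + d - la • M.q M.aa := ⟨_, rfl⟩
  have da : ∀ j, (d j = 1 ∧ a j = M.ex la j ∧ (M.k j = 0 → a j ≤ 0)) ∨
      (0 < d j ∧ d j ≤ 1 ∧ a j = 0 ∧ 0 < M.ex la j) := fun j => by
    have e1 : a j = M.k j + d j - la * M.a j := by simp [ha, Mod.kk, Mod.aa]
    by_cases q : M.k j = 0 ∧ 0 < M.ex la j
    · have e2 : d j = la * M.a j := by simp only [hd, if_pos q]
      have e3 := q.2
      rw [Mod.ex, q.1] at e3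
      refine Or.inr ⟨e2 ▸ mul_pos la0 (ap j), by rw [e2]; push_cast at e3; linarith, ?_, q.2⟩
      rw [e1, e2, q.1]
      simp
    · have e2 : d j = 1 := by simp only [hd, if_neg q]
      have e3 : a j = M.ex la j := by rw [e1, e2]; rfl
      exact Or.inl ⟨e2, e3, fun k => e3 ▸ not_lt.1 fun k' => q ⟨k, k'⟩⟩
  have d01 : ∀ j, 0 < d j ∧ d j ≤ 1 := fun j =>
    (da j).elim (fun k => by rw [k.1]; norm_num) fun k => ⟨k.1, k.2.1⟩
  obtain ⟨d1, a0, -⟩ := (da o).resolve_right fun k => k.2.2.2.ne' h0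
  rw [h0] at a0
  obtain ⟨C, h, t, s, c1, c2, c3, c4, c5, c6, c7, c8, c9⟩ := cham2 hE h4 hM d01 o la ha
  have K := ka hE C hM
  have BW := hE.bas 3 f C.W C.ok
  have hP : (M.v o).pl.o = C.W.v (C.D.e o) := (C.D.v o).symm
  have zero : ∀ {m : ℕ} {c c'} {t : ℚ}, M.q c = m • (a + t • h) → Mob C c c' →
      c o = 0 ∧ c' (C.D.e o) = 0 := fun {m c c' t} q1 q2 => by
    have q3 := congrFun q1 o
    have q4 := congrFun q2.eq (C.D.e o)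
    rw [c8] at q4
    simp only [Pi.smul_apply, Pi.add_apply, a0, c2, smul_zero, add_zero, Mod.q_apply] at q3 q4
    rw [q3] at q4
    exact ⟨by exact_mod_cast q3, by exact_mod_cast q4⟩
  obtain ⟨m0, x0, L0, m1, m2, m3⟩ := K.mob _ c5
  obtain ⟨z1, z2⟩ := zero m2 m3
  obtain ⟨T0, hT0⟩ := m3.free
  obtain ⟨σ, σ1, σ2⟩ := hT0.2 _ (BW.ov_v (C.D.e o))
  have σ3 : σ ∈ M.H x0 := by
    have := m3.H 1
    rw [one_smul, one_smul] at this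
    exact this ▸ hT0.1 σ σ1
  obtain ⟨σ4, σ5⟩ := (BW.gen_v _ _ _).1 σ2
  rw [C.D.v, z2, neg_zero] at σ5
  rcases c3.eq_or_lt with rfl | t0
  · have hx : ∀ j, (x0 j : ℚ) = m0 * a j := fun j => by simpa using congrFun m2 j
    have m0' : (0 : ℚ) < m0 := Nat.cast_pos.2 m1
    obtain ⟨p, rfl⟩ := poly_of_H hE hM (c := x0) (fun j hj => by
      have : (x0 j : ℚ) ≤ 0 := hx j ▸ mul_nonpos_of_nonneg_of_nonpos m0'.le
        ((da j).elim (fun k => k.2.2 hj) fun k => k.2.2.1.le)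
      exact_mod_cast this) σ3
    refine ⟨p, (M.v o).un_O.2 ⟨σ4, σ5⟩, fun j hj => ?_⟩
    have q1 := ((da j).resolve_right fun k => k.2.2.2.not_gt hj).2.1
    have q2 : (x0 j : ℚ) < 0 := by rw [hx, q1]; exact mul_neg_of_pos_of_neg m0' hj
    have q3 : x0 j < 0 := by exact_mod_cast q2
    exact (M.v j).F_anti (by omega) ((B.oc_v j _ _).1 (σ3 _ (B.ov_v j)))
  exfalso
  obtain ⟨n0, x1, L1, n1, n2, n3⟩ := K.mob _ (RKa.inn_mem C c6)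
  obtain ⟨-, z3⟩ := zero n2 n3
  obtain ⟨T1, hT1⟩ := n3.free
  have hp : Pz C x1 L1 := ⟨n3, by
    rw [n2, ← Nat.cast_smul_eq_nsmul ℚ]
    exact RKa.inn_smul C c6 (Nat.cast_pos.2 n1)⟩
  obtain ⟨τ, τ1, τ2⟩ := hT1.2 _ (BW.ov_v (C.D.e o))
  obtain ⟨Z, -⟩ := exists_rat (P := (M.v o).pl) hM h0 rfl
  have s0 := gen_ne C.ok BW hP z2 (BW.ov_v _) (hP ▸ le_rfl) σ2
  have lv : ∀ Γ, M3.Cv (fun l => (M.v o).pl.π (xx 3 l)) Γ → Lv C.W (C.D.e o) (M.v o).pl Γ :=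
    fun Γ q => lv_of C.ok BW.toBas1 hP q.bas
  obtain ⟨r, hr, p0, p1, e0, e1⟩ : ∃ r : ℚ, 0 < r ∧ ∃ p0 p1 : ℕ, (p0 : ℚ) = r * (m0 * t) ∧
      (p1 : ℚ) = r * (n0 * s) := by
    refine ⟨t.den * s.den, by positivity, m0 * t.num.toNat * s.den, n0 * s.num.toNat * t.den,
      ?_, ?_⟩
    · push_cast
      rw [← Int.cast_natCast t.num.toNat, Int.toNat_of_nonneg (Rat.num_nonneg.2 c3),
        ← Rat.mul_den_eq_num]
      ring
    · push_cast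
      rw [← Int.cast_natCast s.num.toNat, Int.toNat_of_nonneg (Rat.num_nonneg.2 (by linarith)),
        ← Rat.mul_den_eq_num]
      ring
  have m0' : (0 : ℚ) < m0 := Nat.cast_pos.2 m1
  have n0' : (0 : ℚ) < n0 := Nat.cast_pos.2 n1
  refine surf Z (Z.fin (kf_fg (P := (M.v o).pl) hM rfl)) (p0 := p0) (p1 := p1)
    (Nat.cast_pos.1 (e0 ▸ by positivity : (0 : ℚ) < p0)) (mem_image_of_mem _ σ1) s0
    ⟨_, mem_image_of_mem _ τ1, gen_ne C.ok BW hP z3 (BW.ov_v _) (hP ▸ le_rfl) τ2⟩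
    (fun Γ q => (lv Γ q).dg hT0 z2) (fun Γ q => (lv Γ q).dg hT1 z3)
    (big_RF hE hK C.ok hP z3 hT1 (K.big _ _ o hp c8))
    (small_RF hE C.ok hP z2 hT0 Z σ1 s0 (wall hE hK.ul hK.tr4 hK.ng C hM c8 c1 c5
      (c9.resolve_left t0.ne') m2 m1 m3 σ3 ((B.gen_v _ _ _).2 ⟨σ4, by rw [σ5, z1, neg_zero]⟩)))
    fun Γ q1 q2 q3 => ?_
  have hL := lv Γ q1
  obtain ⟨n, hN⟩ : ∃ n : ℕ, Nn C.W (lift (M.v o).pl Γ) (n • L1) := by
    rcases not_and_or.1 q3 with q | q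
    · obtain ⟨r, hr⟩ := K.far _ hp.inn (-M.q x0)
      obtain ⟨μ, w, μ0, w1, w2⟩ := K.semi _ (hr r le_rfl).2
      obtain ⟨ν, rfl⟩ := Nat.exists_eq_succ_of_ne_zero μ0.ne'
      have q4 := nn_succ hE hK.ng0 C.ok hL.ov (BW.free_add _ _ (BW.free_nsmul _ ν m3.free) w1)
        (nn_of_null hL z2 hT0 q)
      refine ⟨ν.succ * r, (C.W.q_inj ?_ : L0 + (ν • L0 + w) = (ν.succ * r) • L1) ▸ q4⟩
      rw [C.W.q_add, C.W.q_add, C.W.q_nsmul, C.W.q_nsmul, w2, map_add, map_neg, map_nsmul,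
        ← m3.eq, ← n3.eq, Nat.succ_eq_add_one]
      module
    · exact ⟨1, by rw [one_smul]; exact nn_of_null hL z3 hT1 q⟩
  obtain ⟨u, u1, u', u2, u3, u4⟩ := id hN
  rcases hL.dich hK.up C.ok (fun b hb => (hK.ng0 3 f C.W C.ok).lc _ _ b u u1 u' u2 hb u3) u4 with
    ⟨i, hi⟩ | hi
  swap
  · rw [hL.sum_off hi, hL.sum_off hi, mul_zero, mul_zero]
  have hC := hE.cv 3 f C.W C.ok
  rw [hL.sum_cv hC q1.sur hi fun i => (L0 i : ℚ), hL.sum_cv hC q1.sur hi fun i => (L1 i : ℚ)]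
  have w0 : C.W.ex la (C.D.e o) = 0 := by
    have Dc := hE.dc 3 f C.W M C.D C.ok hM
    have q5 := congrFun Dc.aa (C.D.e o)
    rw [Dc.pb_e] at q5
    have q6 : M.a o = C.W.a (C.D.e o) := Int.ofNat_inj.1 q5
    rw [Mod.ex, (hE.jd 3 f C.W M C.D C.ok hM).2, ← q6]
    exact h0
  obtain ⟨p, hp'⟩ := q1.sur
  have pos : 0 ≤ C.P a i := not_lt.1 fun q => (H Γ _ q1.sur q1.nc
    (fun p => q2 _ (pi_ip (B.ov_v o) _ p)) (exp_isCv C.ok hP w0 he hp' hi)).not_gt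
    (ar hE hK.nn hM hp c8 c1 (t0.trans c4) d1 (fun j => ⟨(d01 j).1.le, (d01 j).2⟩) c7 h0
      (fun j hj => ((da j).resolve_right fun k => (ha ▸ hj : a j < 0).ne k.2.2.1).1) hi hN
      (ha ▸ q))
  have l0 := congrFun m3.eq i
  have l1 := congrFun n3.eq i
  rw [m2, map_nsmul, map_add, map_smul] at l0
  rw [n2, map_nsmul, map_add, map_smul] at l1
  simp only [Mod.q_apply, Pi.smul_apply, Pi.add_apply, smul_eq_mul] at l0 l1
  simp only [nsmul_eq_mul] at l0 l1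
  rw [l0, l1, e0, e1, ← sub_nonneg]
  have := mul_nonneg (mul_pos (mul_pos hr (mul_pos m0' n0')) (sub_pos.2 c4)).le pos
  linarith

end Pool.Agent.MP_ee8c61_ag.Q3FG
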