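import Pool.Agent.MP_ee8c61_ag.M3.FinK
import Pool.Agent.MP_ee8c61_ag.M3E.Final
import Pool.Agent.MP_ee8c61_ag.M3S4.Asm
import Pool.Agent.MP_ee8c61_ag.M3CP.Asm
import Pool.Agent.MP_ee8c61_ag.M3S.All
import Pool.Agent.MP_ee8c61_ag.Q3FG.Sls

/-! The output of the block. -/

namespace Pool.Agent.MP_ee8c61_ag.Q3FG

open M3E (eout)

theorem sls : Q3.SLS :=
  sls_of eout (M3.kout_of eout) (M3S4.s4_of eout.bas (M3CP.cmp_of eout M3S.thmFnd) M3S.thmDESC)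

end Pool.Agent.MP_ee8c61_ag.Q3FG
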