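import Pool.Agent.MP_ee8c61_ag.M3FG.Asm

/-!
Finite generation on a box with an arbitrary positive lower bound.
-/

namespace Pool.Agent.MP_ee8c61_ag.Q3FG

open M3 M3E M3FG

/-- An adjoint divisor whose boundary has coefficients at least `b₀`. -/
def Adb {N : ℕ} (M : Mod N) (b₀ : ℚ) (A : M.J → ℚ) (c : M.J → ℤ) (m r : ℚ) (β : M.J → ℚ) : Prop :=
  0 ≤ m ∧ (∀ j, b₀ * m ≤ β j ∧ β j ≤ m) ∧ M.q c = m • (M.q M.kk + A) + β + r • M.q M.aa

def StTR (b₀ : ℚ) : Prop := All3 fun f M => ∀ (o : M.J) (A : M.J → ℚ), M.AmpQ A →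
  ∃ (W : Mod 3) (D : Dom W M) (μ d : ℕ) (w : W.J → ℤ), W.OK f ∧ 0 < μ ∧ 0 < d ∧ W.Amp w ∧
    ∀ c m r β, Adb M b₀ A c m r β → β o = m → ∃ (s : ℕ) (ρ n : ℤ) (b : W.J → ℤ), 0 < s ∧
      Box W (D.e o) μ d n b ∧ CanZ W (D.e o) (μ * n) b ∧
      D.pb (s • c - ρ • M.aa) ≤ n • FF W (D.e o) μ w + b ∧
      D.pf (n • FF W (D.e o) μ w + b) = s • c - ρ • M.aa

def StRESY (b₀ : ℚ) : Prop := All3 fun _ M => ∀ (o : M.J) (A : M.J → ℚ), M.AmpQ A →
  ∃ G : Set ((M.J → ℤ) × KK 3), G.Finite ∧ (∀ p ∈ G, p.2 ∈ M.H p.1) ∧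
    ∀ c m r β, Adb M b₀ A c m r β → β o = m → ∀ g ∈ M.H c, SpM (M.v o) (ev M o) G c g

def StBOX (b₀ : ℚ) : Prop := All3 fun _ M => ∀ A : M.J → ℚ, M.AmpQ A →
  ∃ G : Set ((M.J → ℤ) × KK 3), G.Finite ∧ (∀ p ∈ G, p.2 ∈ M.H p.1) ∧
    ∀ c m r β, Adb M b₀ A c m r β → ∀ g ∈ M.H c, ∃ n : ℕ, 0 < n ∧ Sp G (n • c) (g ^ n)

variable {b₀ : ℚ}

theorem ex_B {N : ℕ} (M : Mod N) (o : M.J) (σ m : ℚ) (β : M.J → ℚ) (h2 : σ ≤ 1 / 2) (h3 : σ ≤ b₀)
    (hm : 0 ≤ m) (hβ : ∀ j, b₀ * m ≤ β j ∧ β j ≤ m) (ho : β o = m) :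
    ∃ B : M.J → ℚ, 0 ≤ B ∧ B ≤ (1 - σ) • M.dd o ∧ B o = 0 ∧
      ∀ j, β j = m * (M.e o j + B j + σ * M.dd o j) := by
  rcases hm.eq_or_lt with rfl | hm'
  · refine ⟨0, le_rfl, fun j => ?_, rfl, fun j => ?_⟩
    · simp only [Mod.dd, Pi.zero_apply, Pi.smul_apply, smul_eq_mul]
      split_ifs <;> linarith
    · have := hβ j
      rw [zero_mul]
      rw [mul_zero] at this
      linarith [this.1, this.2]
  · refine ⟨fun j => if j = o then 0 else β j / m - σ, fun j => ?_, fun j => ?_, by simp,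
      fun j => ?_⟩
    · have a : b₀ ≤ β j / m := by
        rw [le_div_iff₀ hm']
        linarith [(hβ j).1]
      simp only [Pi.zero_apply]
      split_ifs <;> linarith
    · have a : β j / m ≤ 1 := by
        rw [div_le_iff₀ hm']
        linarith [(hβ j).2]
      simp only [Mod.dd, Pi.smul_apply, smul_eq_mul]
      split_ifs <;> linarith
    · simp only [Mod.dd, Mod.e_apply]
      split_ifs with h
      · rw [h, ho]
        simp
      · simp only [Int.cast_zero]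
        field_simp
        ring

open RTR hiding ex_B in
theorem tr_b (E : EOut) (hb₀ : 0 < b₀) : StTR b₀ := by
  intro f M hM o A hA
  obtain ⟨ε0, hε0, hopn⟩ := (E.aq 3 f M hM).opn A (M.dd o) hA
  obtain ⟨σ, hσ, hσ2, hσ3, hσε⟩ : ∃ σ : ℚ, 0 < σ ∧ σ ≤ 1 / 2 ∧ σ ≤ b₀ ∧ σ ≤ ε0 :=
    ⟨min (1 / 2) (min b₀ ε0), lt_min (by norm_num) (lt_min hb₀ hε0), min_le_left _ _,
      (min_le_right _ _).trans (min_le_left _ _), (min_le_right _ _).trans (min_le_right _ _)⟩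
  have hA' := hopn σ hσ.le hσε
  obtain ⟨W, D, hW, hcan⟩ := E.can f M hM σ hσ
  obtain ⟨Ξ, hΞ0, hΞp, ε1, hε1, hamp⟩ := E.a4 3 f W M D hW hM _ hA'
  have hplt := E.plt 3 f W M D hW hM o
  have hdc := E.dc 3 f W M D hW hM
  have hdd : ∀ j, ((1 - σ) • M.dd o) j ≤ 1 - σ := fun j => by
    simp only [Mod.dd, Pi.smul_apply, smul_eq_mul]
    split_ifs <;> linarith
  have hmax := (hplt ((1 - σ) • M.dd o) (by simp [Mod.dd])
    (fun j => (hdd j).trans_lt (by linarith))).2.2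
  obtain ⟨τ, hτ, hτσ, hτb⟩ := ex_lb (fun i => 1 - D.bd o ((1 - σ) • M.dd o) i)
    (fun i => sub_pos.2 (hmax i)) σ hσ
  have hΞq : ∀ i, (0 : ℚ) ≤ Ξ i := fun i => by exact_mod_cast hΞ0 i
  obtain ⟨ε, hε, hεε, hεb⟩ := ex_lb (fun i => τ / 2 / ((Ξ i : ℚ) + 1))
    (fun i => div_pos (by linarith) (by linarith [hΞq i])) ε1 hε1
  have hεΞ : ∀ i, ε * Ξ i ≤ τ / 2 := fun i => by
    have a := hεb i
    rw [le_div_iff₀ (by linarith [hΞq i])] at a
    linarith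
  obtain ⟨d, hd⟩ := exists_nat_ge (2 / τ)
  have hdτ : (2 : ℚ) ≤ d * τ := by rwa [div_le_iff₀ hτ] at hd
  have hd0 : 0 < d := by
    rcases Nat.eq_zero_or_pos d with h | h
    · rw [h] at hdτ
      norm_num at hdτ
    · exact h
  obtain ⟨μ, w, hμ, hw, hqw⟩ := hamp ε hε hεε
  have hμq : (0 : ℚ) < μ := Nat.cast_pos.2 hμ
  refine ⟨W, D, μ, d, w, hW, hμ, hd0, hw, ?_⟩
  rintro c m r β ⟨hm, hβ, hc⟩ ho
  obtain ⟨B, hB0, hB1, hBo, hBβ⟩ := ex_B M o σ m β hσ2 hσ3 hm hβ ho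
  have hBs : ∀ j, B j ≤ 1 - σ := fun j => (hB1 j).trans (hdd j)
  obtain ⟨p1, p2, -⟩ := hplt B hBo fun j => (hBs j).trans_lt (by linarith)
  have hbd : ∀ i, D.bd o B i ≤ 1 - τ := fun i => by
    have a : D.pb (M.q (M.kk + M.e o) + B) ≤ D.pb (M.q (M.kk + M.e o) + (1 - σ) • M.dd o) :=
      D.pb_mono (add_le_add_right hB1 _)
    have a1 := a i
    have a2 := hτb i
    simp only [Dom.bd, Pi.sub_apply] at a2 ⊢
    linarith
  set BW : W.J → ℚ := fun i => max (D.bd o B i) 0 + ε * Ξ i with hBW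
  obtain ⟨s, hs, hz⟩ := ex_den (fun x : Option (Option W.J) =>
    x.elim r fun y => y.elim (m / μ) fun i => m * BW i)
  obtain ⟨ρ, hρ⟩ := hz none
  obtain ⟨n, hn⟩ := hz (some none)
  choose b hb using fun i => hz (some (some i))
  simp only [Option.elim_none, Option.elim_some] at hρ hn hb
  have hsq : (0 : ℚ) < s := Nat.cast_pos.2 hs
  have hsm : (0 : ℚ) ≤ s * m := mul_nonneg hsq.le hm
  have hμn : (μ : ℚ) * n = s * m := by
    rw [hn]
    field_simp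
  have hb' : ∀ i, (b i : ℚ) = s * m * BW i := fun i => by rw [hb i, mul_assoc]
  have hBW0 : ∀ i, 0 ≤ BW i := fun i =>
    add_nonneg (le_max_right _ _) (mul_nonneg hε.le (hΞq i))
  have hBW1 : ∀ i, BW i ≤ 1 - τ / 2 := fun i => by
    have a : max (D.bd o B i) 0 ≤ 1 - τ := max_le (hbd i) (by linarith)
    have := hεΞ i
    simp only [hBW]
    linarith
  set Z : M.J → ℚ := M.q (M.kk + M.e o) + B + (A + σ • M.dd o) with hZ
  have hq : M.q (s • c - ρ • M.aa) = ((s : ℚ) * m) • Z := by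
    rw [M.q_sub, M.q_nsmul, M.q_zsmul, hc, hρ]
    funext j
    have := hBβ j
    simp only [hZ, Pi.sub_apply, Pi.smul_apply, Pi.add_apply, Mod.q_apply, smul_eq_mul,
      Int.cast_add, this]
    simp only [nsmul_eq_mul]
    ring
  have key : ∀ i, W.q (n • FF W (D.e o) μ w + b) i =
      s * m * (D.pb Z i + (max (D.bd o B i) 0 - D.bd o B i)) := fun i => by
    have a1 := congrFun hqw i
    have a2 : D.pb Z i = D.pb (M.q (M.kk + M.e o) + B) i + D.pb (A + σ • M.dd o) i := by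
      rw [hZ, D.pb_add]
      rfl
    have a3 : D.bd o B i = D.pb (M.q (M.kk + M.e o) + B) i - W.q (W.kk + W.e (D.e o)) i := rfl
    have a4 : W.q (n • FF W (D.e o) μ w + b) i =
        n * (μ * W.q (W.kk + W.e (D.e o)) i + W.q w i) + b i := by
      simp [FF]
      ring
    simp only [Pi.smul_apply, Pi.sub_apply, smul_eq_mul] at a1
    simp only [nsmul_eq_mul] at a1
    have a5 : W.q Ξ i = Ξ i := rfl
    rw [a4, a1, hb' i, a2, a5]
    simp only [hBW]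
    have a6 : W.q (W.kk + W.e (D.e o)) i = D.pb (M.q (M.kk + M.e o) + B) i - D.bd o B i := by
      rw [a3]
      ring
    rw [a6]
    linear_combination (D.pb (M.q (M.kk + M.e o) + B) i - D.bd o B i +
      (D.pb (A + σ • M.dd o) i - ε * Ξ i)) * hμn
  refine ⟨s, ρ, n, b, hs, ⟨?_, ?_, fun j => ⟨?_, ?_⟩⟩, ?_, fun i => ?_, ?_⟩
  · have a : (0 : ℚ) ≤ n := by
      rw [hn]
      exact mul_nonneg hsq.le (div_nonneg hm hμq.le)
    exact_mod_cast a
  · have a : Ξ (D.e o) = 0 := congrFun hΞp o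
    have a' : (b (D.e o) : ℚ) = 0 := by
      rw [hb']
      simp [hBW, p1, a]
    exact_mod_cast a'
  · have a : (0 : ℚ) ≤ b j := by
      rw [hb']
      exact mul_nonneg hsm (hBW0 j)
    exact_mod_cast a
  · have hdq : (0 : ℚ) ≤ d := Nat.cast_nonneg d
    have a0 : (d : ℚ) * BW j ≤ d - 1 := by
      have := mul_le_mul_of_nonneg_left (hBW1 j) hdq
      linarith
    have a : (d : ℚ) * b j ≤ ((d : ℚ) - 1) * (μ * n) := by
      rw [hb', hμn]
      have := mul_le_mul_of_nonneg_left a0 hsm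
      linarith
    exact_mod_cast a
  · rintro i j ⟨V, h1, h2, h3, h4, h5, h6, h7⟩
    rw [D.v o] at h2
    have a0 := hcan o B hB0 hBs hBo i j V h1 h2 h3 h4 h5 h6 h7
    have a1 : BW i + BW j ≤ 1 := by
      have b1 := hεΞ i
      have b2 := hεΞ j
      have b3 := hbd i
      have b4 := hbd j
      simp only [hBW]
      rcases le_total (D.bd o B i) 0 with x | x <;> rcases le_total (D.bd o B j) 0 with y | y
      · rw [max_eq_right x, max_eq_right y]; linarith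
      · rw [max_eq_right x, max_eq_left y]; linarith
      · rw [max_eq_left x, max_eq_right y]; linarith
      · rw [max_eq_left x, max_eq_left y]; linarith
    have a : (b i : ℚ) + b j ≤ μ * n := by
      rw [hb', hb', hμn]
      have := mul_le_mul_of_nonneg_left a1 hsm
      linarith
    exact_mod_cast a
  · have a : W.q (D.pb (s • c - ρ • M.aa)) i ≤ W.q (n • FF W (D.e o) μ w + b) i := by
      rw [key, D.q_pb, hq, D.pb_smul]
      have a1 : 0 ≤ max (D.bd o B i) 0 - D.bd o B i := sub_nonneg.2 (le_max_left _ _)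
      have := mul_nonneg hsm a1
      simp only [Pi.smul_apply, smul_eq_mul]
      linarith
    simp only [Mod.q_apply] at a
    exact_mod_cast a
  · apply M.q_inj
    rw [hq]
    funext j
    have a := key (D.e j)
    have hBj : (0 : ℚ) ≤ B j := hB0 j
    rw [p2 j, max_eq_left hBj, hdc.pb_e] at a
    have a' : M.q (D.pf (n • FF W (D.e o) μ w + b)) j =
        W.q (n • FF W (D.e o) μ w + b) (D.e j) := rfl
    rw [a', a]
    simp

open RRESY in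
theorem resy_b (E : EOut) (hF : StmtFINM) (hR : StmtRES) (hT : StTR b₀) : StRESY b₀ :=
    fun f M hM o A hA => by
  obtain ⟨W, D, μ, d, w, hW, hμ, hd, hw, hTR⟩ := hT f M hM o A hA
  obtain ⟨GW, fin, hGW, hRES⟩ := hR f W hW (D.e o) μ d w hμ hd hw
  have B := E.bas 3 f M hM
  have BW := E.bas 3 f W hW
  have C := E.dc 3 f W M D hW hM
  obtain ⟨G1, fin1, hG1, m1, m2, m3, m4⟩ : ∃ G1 : Set ((M.J → ℤ) × KK 3), G1.Finite ∧
      (∀ p ∈ G1, p.2 ∈ M.H p.1) ∧ (∀ p ∈ GW, (D.pf p.1, p.2) ∈ G1) ∧ (-M.aa, ip 3 f) ∈ G1 ∧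
      (M.aa, (ip 3 f)⁻¹) ∈ G1 ∧ ∀ l, (0, ip 3 (MvPolynomial.X l)) ∈ G1 := by
    refine ⟨(fun p => (D.pf p.1, p.2)) '' GW ∪ ({(-M.aa, ip 3 f), (M.aa, (ip 3 f)⁻¹)} ∪
      Set.range fun l => (0, ip 3 (MvPolynomial.X l))),
      (fin.image _).union ((Set.toFinite _).union (Set.finite_range _)), ?_,
      fun p hp => Or.inl ⟨p, hp, rfl⟩, Or.inr (Or.inl (Or.inl rfl)),
      Or.inr (Or.inl (Or.inr rfl)), fun l => Or.inr (Or.inr ⟨l, rfl⟩)⟩
    rintro _ (⟨p, hp, rfl⟩ | (rfl | rfl) | ⟨l, rfl⟩)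
    · exact C.push _ (hGW p hp)
    · exact fun V _ => B.gen_oc V _ _ (B.gen_f V)
    · exact fun V _ => B.gen_oc V _ _ (fi_gen B V)
    · exact poly_H B _
  have hv : ∀ c g, g ∈ M.H c → g ∈ (M.v o).F (-ev M o c) := fun c g h =>
    B.R_F o c g (B.H_R o c h)
  have hG2 : ∀ p ∈ G1 ∪ {0} ×ˢ M.R o 0, p.2 ∈ (M.v o).F (-ev M o p.1) := by
    rintro ⟨c, g⟩ (hp | ⟨rfl, hp⟩)
    · exact hv _ _ (hG1 _ hp)
    · exact B.R_F o 0 g hp
  obtain ⟨G', hG', fin', hS⟩ := hF 3 f M hM o M.J (ev M o) G1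
    {p | (∃ m r β, Adb M b₀ A p.1 m r β ∧ β o = m) ∧ p.2 ∈ M.H p.1} fin1
    (fun p hp => hv _ _ (hG1 p hp)) m4 (by
      rintro ⟨c, g⟩ ⟨⟨m, r, β, hA', hβ⟩, hg⟩
      refine ⟨hv _ _ hg, ?_⟩
      obtain ⟨s, ρ, n, b, hs, hB, hC, hle, hpf⟩ := hTR c m r β hA' hβ
      refine ⟨s, hs, ?_⟩
      have h1 : g ^ s * ip 3 f ^ ρ ∈ M.H (s • c - ρ • M.aa) := fun V hV => by
        rw [sub_eq_add_neg]
        exact B.oc_mul V _ _ _ _ (B.oc_pow V _ _ s (hg V hV)) (fz_H B ρ V hV)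
      rw [← C.H] at h1
      have h2 : g ^ s * ip 3 f ^ ρ ∈ W.H (n • FF W (D.e o) μ w + b) := fun V hV =>
        BW.oc_mono V _ _ _ (fun j _ => hle j) (h1 V hV)
      have h3 := hRES n b hB hC _ h2
      rw [D.v o] at h3
      have h4 := h3.map (δ' := ev M o) (G' := G1 ∪ {0} ×ˢ M.R o 0) (triv B o) (pfH D)
        (fun _ => rfl) hG2 (by
          rintro ⟨c', g'⟩ (hp | ⟨rfl, hp⟩)
          · exact SpM.of (Sp.gen (Or.inl (m1 _ hp)))
          · refine SpM.of (Sp.gen (Or.inr ⟨rfl, ?_⟩))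
            rw [← C.R, D.pb_zero]
            exact hp)
      have h5 := h4.mul (triv B o) hG2 (SpM.of (fz_Sp (Or.inl m2) (Or.inl m3) ρ))
      refine h5.cast ?_ ?_
      · exact (congrArg (· + ρ • M.aa) hpf).trans (sub_add_cancel _ _)
      · rw [mul_assoc, ← zpow_add₀ (f_ne hM B), add_neg_cancel, zpow_zero, mul_one])
  refine ⟨G1 ∪ G', fin1.union fin', ?_, fun c m r β hA' hβ g hg =>
    hS (c, g) ⟨⟨m, r, β, hA', hβ⟩, hg⟩⟩
  rintro p (hp | hp)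
  · exact hG1 p hp
  · exact (hG' hp).2

end Pool.Agent.MP_ee8c61_ag.Q3FG
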