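import Pool.Agent.MP_ee8c61_ag.M3F.LF
import Pool.Agent.MP_ee8c61_ag.M3I44.Kit

/-!
A function that is regular along all curves that are not contracted is integral.
-/

namespace Pool.Agent.MP_ee8c61_ag.Q3FG

open M3 M3RESID
open scoped IntermediateField

namespace PoleX

open Polynomial

theorem mem_int {R L : Type} [CommRing R] [Field L] (φ : R →+* L) (V : ValuationSubring L)
    (hV : ∀ r, φ r ∈ V) {x : L} (hx : φ.IsIntegralElem x) : x ∈ V := by
  obtain ⟨p, hp, hpx⟩ := hx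
  have hi : IsIntegral V x := by
    refine ⟨p.map (φ.codRestrict V.toSubring hV), hp.map _, ?_⟩
    rw [Polynomial.eval₂_map]
    exact hpx
  obtain ⟨y, hy⟩ := IsIntegrallyClosed.algebraMap_eq_of_integral hi
  exact hy ▸ y.2

theorem int_of {R L : Type} [CommRing R] [Field L] [Algebra R L] {u : L}
    (h : ∀ V : ValuationSubring L, (∀ r, algebraMap R L r ∈ V) → u ∈ V) : IsIntegral R u := by
  have e := iInf_valuationSubring_superset (s := ((algebraMap R L).range : Set L))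
  rw [Subring.closure_eq] at e
  have : u ∈ (integralClosure (algebraMap R L).range L).toSubring :=
    e ▸ Subring.mem_iInf.2 fun V => h V.1 fun r => V.2 ⟨r, rfl⟩
  obtain ⟨q, q1, q2⟩ := this
  obtain ⟨p, rfl, -, p1⟩ := lifts_and_natDegree_eq_and_monic
    ((lifts_iff_coeff_lifts (f := (algebraMap R L).rangeRestrict) q).2 fun n =>
      (algebraMap R L).rangeRestrict_surjective _) q1
  rw [Polynomial.eval₂_map] at q2
  exact ⟨p, p1, q2⟩

theorem int_loc {R L : Type} [CommRing R] [IsDomain R] [UniqueFactorizationMonoid R] [Field L]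
    (φ : R →+* L) (hφ : Function.Injective φ) {u : L} {p₀ : R} (h0 : Prime p₀)
    (h : ∀ p, Prime p → ∀ V : ValuationSubring L, (∀ a b, ¬p ∣ b → φ a / φ b ∈ V) → u ∈ V) :
    φ.IsIntegralElem u := by
  let := φ.toAlgebra
  have : FaithfulSMul R L := (faithfulSMul_iff_algebraMap_injective R L).2 hφ
  let K := FractionRing R
  let := FractionRing.liftAlgebra R L
  have key : ∀ p : R, Prime p → IsIntegral K u ∧ ∀ n, ∃ a b : R, ¬p ∣ b ∧
      (minpoly K u).coeff n = algebraMap R K a * (algebraMap R K b)⁻¹ := fun p hp => by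
    have : (Ideal.span {p}).IsPrime := (Ideal.span_singleton_prime hp.ne_zero).2 hp
    have hS := (Ideal.span {p}).primeCompl_le_nonZeroDivisors
    let S := Localization.subalgebra.ofField K _ hS
    have : IsIntegrallyClosed S := isIntegrallyClosed_of_isLocalization S _ hS
    have hi : IsIntegral S u := int_of fun V hV => h p hp V fun a b hb => by
      have : algebraMap K L (algebraMap R K a * (algebraMap R K b)⁻¹) ∈ V :=
        hV ⟨_, a, b, fun q => hb (Ideal.mem_span_singleton.1 q), rfl⟩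
      rwa [map_mul, map_inv₀, ← IsScalarTower.algebraMap_apply, ← IsScalarTower.algebraMap_apply,
        ← div_eq_mul_inv] at this
    refine ⟨hi.tower_top, fun n => ?_⟩
    rw [minpoly.isIntegrallyClosed_eq_field_fractions' K hi, coeff_map]
    obtain ⟨a, b, hb, e⟩ := ((minpoly S u).coeff n).2
    exact ⟨a, b, fun q => hb (Ideal.mem_span_singleton.2 q), e⟩
  obtain ⟨q, q1, -, q2⟩ := lifts_and_natDegree_eq_and_monic
    ((lifts_iff_coeff_lifts (f := algebraMap R K) (minpoly K u)).2 fun n => by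
      refine IsFractionRing.isInteger_of_isUnit_den (by_contra fun hn => ?_)
      obtain ⟨p, p1, p2⟩ := WfDvdMonoid.exists_irreducible_factor hn
        (nonZeroDivisors.coe_ne_zero _)
      obtain ⟨a, b, hb, e⟩ := (key p p1.prime).2 n
      have b0 : algebraMap R K b ≠ 0 := fun z =>
        hb (by rw [(map_eq_zero_iff _ (IsFractionRing.injective R K)).1 z]; exact dvd_zero p)
      rw [← IsFractionRing.mk'_num_den' R ((minpoly K u).coeff n), ← div_eq_mul_inv,
        div_eq_div_iff (IsFractionRing.to_map_ne_zero_of_mem_nonZeroDivisors (Subtype.prop _)) b0,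
        ← map_mul, ← map_mul] at e
      have := IsFractionRing.injective R K e
      exact p1.not_isUnit (IsFractionRing.num_den_reduced R _ ((p1.prime.dvd_or_dvd
        (this ▸ p2.mul_left a)).resolve_right hb) p2)) (minpoly.monic (key p₀ h0).1)
  refine ⟨q, q2, ?_⟩
  have := minpoly.aeval K u
  rwa [← q1, aeval_map_algebraMap] at this

theorem nd {R : Type} [CommRing R] [Algebra ℂ R] {p t : R} (hp : Prime p)
    (h : ∀ c : ℂ, ¬p ∣ t - algebraMap ℂ R c) {s : ℂ[X]} (hs : s ≠ 0) : ¬p ∣ aeval t s := by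
  rw [(IsAlgClosed.splits s).eq_prod_roots, map_mul, map_multiset_prod, aeval_C]
  intro hd
  rcases hp.dvd_or_dvd hd with e | e
  · exact hp.not_isUnit (isUnit_of_dvd_unit e ((leadingCoeff_ne_zero.2 hs).isUnit.map _))
  · obtain ⟨x, x1, x2⟩ := hp.exists_mem_multiset_dvd e
    rw [Multiset.map_map] at x1
    obtain ⟨c, -, rfl⟩ := Multiset.mem_map.1 x1
    exact h c (by simpa using x2)

theorem pick {s : ℕ} {i j : Fin s} (hij : i ≠ j) {p : MvPolynomial (Fin s) ℂ} (hp : Prime p) :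
    ∃ k, ∀ c : ℂ, ¬p ∣ MvPolynomial.X k - algebraMap ℂ _ c := by
  by_contra! h
  choose d hd using h
  let σ : (Fin s → ℂ) → MvPolynomial (Fin s) ℂ →ₐ[ℂ] MvPolynomial (Fin s) ℂ := fun d =>
    MvPolynomial.aeval fun k => MvPolynomial.X k + MvPolynomial.C (d k)
  have h1 : ∀ k, σ d p ∣ MvPolynomial.X k := fun k => by simpa [σ] using map_dvd (σ d) (hd k)
  have h2 : (σ (-d)).comp (σ d) = AlgHom.id _ _ := MvPolynomial.algHom_ext fun k => by simp [σ]
  rcases (MvPolynomial.X_prime.irreducible.dvd_iff).1 (h1 i) with e | e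
  · exact hp.not_isUnit ((DFunLike.congr_fun h2 p).subst (e.map (σ (-d))))
  · exact hij (MvPolynomial.X_dvd_X.1 (e.dvd.trans (h1 j)))

variable {L : Type} [Field L] [Algebra ℂ L]

theorem place (C : M3RESID.Co L 2)
    (hf : FiniteDimensional (IntermediateField.adjoin ℂ (Set.range C.z)) L) {t : L}
    (ht : ∀ c : ℂ, t ≠ algebraMap ℂ L c) {V : ValuationSubring L} (hV : V ≠ ⊤)
    (h : ∀ g ∈ ℂ⟮t⟯, g ∈ V) :
    ∃ Γ : DV L, (∃ π, Γ.v π = 1) ∧ NC Γ t ∧ ∀ g, g ∈ V ↔ g ∈ Γ.F 0 := by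
  have tr := M3F.tr_of_nc ht
  have hd := M3F.exists_der C hf tr
  have := M3F.cz (M3F.Kz t)
  let Y := M3F.rel (M3F.Kz t) (M3F.fib C t) fun _ hy => hy _ (M3F.fib_self C)
  have hY : Y ≠ 0 := fun h => by
    obtain ⟨i, hi⟩ := M3F.fib_ne C hd
    exact hi (congrArg (fun Z : Derivation (M3F.Kz t) L L => Z (C.z i)) h)
  obtain ⟨g, N, hD⟩ := M3F.gf (M3F.Kz t) L (M3F.isFF_Kz C hf hd) (M3F.cl_Kz t) Y hY
  obtain ⟨P, hP⟩ := hD.pl V (fun c => M3G.RDn.alg_mem (k := ℂ⟮t⟯) V (fun g => h g g.2)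
    (M3F.alg_Kz C hf tr c.2)) hV
  refine ⟨_, (M3F.hor_dvOf P).1, M3F.Hor.nc (M3F.hor_dvOf P) (M3F.self_mem_Kz t) ht, fun g => ?_⟩
  rw [M3F.mem_F, hP]
  simp

end PoleX

open PoleX

theorem pole {L : Type} [Field L] [Algebra ℂ L] (C : M3RESID.Co L 2)
    (hf : FiniteDimensional (IntermediateField.adjoin ℂ (Set.range C.z)) L) (T : Finset L)
    (hT : ∀ X : VF L, (∀ g ∈ T, X g = 0) → X = 0) {u : L}
    (hu : ∀ Γ : DV L, (∃ π, Γ.v π = 1) → (∀ g ∈ T, g ∈ Γ.F 0) → (∃ g ∈ T, NC Γ g) → u ∈ Γ.F 0) :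
    M3I44.Cl (T : Set L) u := by
  let A := Algebra.adjoin ℂ (T : Set L)
  have : Algebra.FiniteType ℂ A := A.fg_iff_finiteType.1 ⟨T, rfl⟩
  obtain ⟨s, ψ, a1, a2⟩ := exists_integral_inj_algHom_of_fg ℂ A
  let φ := A.val.comp ψ
  have inj : Function.Injective φ := Subtype.val_injective.comp a1
  have nc : ∀ (i : Fin s) (c : ℂ), φ (MvPolynomial.X i) ≠ algebraMap ℂ L c := fun i c e => by
    simpa using congrArg (MvPolynomial.eval fun _ => c + 1) (inj (e.trans (φ.commutes c).symm))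
  have c1 : ∀ r, M3I44.Cl (T : Set L) (φ r) := fun r W h1 h2 =>
    Algebra.adjoin_le (S := ⟨W.toSubring.toSubsemiring, h1⟩) h2 (ψ r).2
  have c2 : ∀ V : ValuationSubring L, (∀ r, φ r ∈ V) → ∀ g ∈ T, g ∈ V := fun V hV g hg => by
    obtain ⟨q, q1, q2⟩ := a2 ⟨g, Algebra.subset_adjoin hg⟩
    refine mem_int φ.toRingHom V hV ⟨q, q1, ?_⟩
    have := congrArg A.val.toRingHom q2
    rwa [Polynomial.hom_eval₂, map_zero] at this
  obtain ⟨i, j, hij⟩ : ∃ i j : Fin s, i ≠ j := by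
    by_contra! hs
    obtain ⟨t, t1, t2⟩ : ∃ t, (∃ X : VF L, X t ≠ 0) ∧ ∀ i, φ (MvPolynomial.X i) = t := by
      rcases isEmpty_or_nonempty (Fin s) with e | ⟨⟨i⟩⟩
      · exact ⟨C.z 0, ⟨C.D 0, by simp [C.dual]⟩, fun i => e.elim i⟩
      · exact ⟨_, M3F.exists_der C hf (M3F.tr_of_nc (nc i)), fun j => by rw [hs j i]⟩
    obtain ⟨k, hk⟩ := M3F.fib_ne C t1
    refine hk (by
      rw [hT (M3F.fib C t) fun g hg => M3I44.Cl.kill (S := Set.range φ)
        (fun V _ h => c2 V (fun r => h _ ⟨r, rfl⟩) g hg) (M3F.Kz t) ?_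
        fun _ hy => hy _ (M3F.fib_self C)]
      · rfl
      rintro _ ⟨r, rfl⟩
      induction r using MvPolynomial.induction_on with
      | C a => exact (φ.commutes a).symm ▸ (M3F.Kz t).algebraMap_mem a
      | add p q hp hq => rw [map_add]; exact add_mem hp hq
      | mul_X p i hp => rw [map_mul, t2]; exact mul_mem hp (M3F.self_mem_Kz t))
  refine fun W h1 h2 => mem_int φ.toRingHom W (fun r => c1 r W h1 h2)
    (int_loc φ.toRingHom inj (MvPolynomial.X_prime (i := i)) fun p hp V hV => ?_)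
  by_cases e : V = ⊤
  · exact e ▸ trivial
  obtain ⟨k, hk⟩ := pick hij hp
  obtain ⟨Γ, b1, b2, b3⟩ := place C hf (nc k) e fun g hg => by
    obtain ⟨a, b, rfl⟩ := (IntermediateField.mem_adjoin_simple_iff ℂ g).1 hg
    by_cases b0 : b = 0
    · simp [b0]
    rw [Polynomial.aeval_algHom_apply, Polynomial.aeval_algHom_apply]
    exact hV _ _ (nd hp hk b0)
  have h3 : ∀ g ∈ T, g ∈ Γ.F 0 := fun g hg => (b3 g).1 (c2 V (fun r => by
    simpa using hV r 1 hp.not_dvd_one) g hg)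
  refine (b3 u).2 (hu Γ b1 h3 (by_contra fun hn => ((c1 _).cn fun g hg => ?_).not b2))
  exact M3I44.cn_of (h3 g hg) fun q => hn ⟨g, hg, q⟩

end Pool.Agent.MP_ee8c61_ag.Q3FG
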